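import Mathlib

namespace MP55c1e7.D0

universe u v

/-- The localisation at a prime, inside a field containing the ring. -/
def locSub (B : Type u) (K : Type v) [CommRing B] [Field K] [Algebra B K] [FaithfulSMul B K]
    (P : Ideal B) [hP : P.IsPrime] : Subalgebra B K where
  carrier := {a | ∃ b s : B, s ∉ P ∧ a = algebraMap B K b / algebraMap B K s}
  mul_mem' := by
    rintro _ _ ⟨b, s, hs, rfl⟩ ⟨b', s', hs', rfl⟩
    exact ⟨b * b', s * s', fun h => (hP.mem_or_mem h).elim hs hs', by
      rw [map_mul, map_mul, div_mul_div_comm]⟩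
  add_mem' := by
    rintro _ _ ⟨b, s, hs, rfl⟩ ⟨b', s', hs', rfl⟩
    have hinj := FaithfulSMul.algebraMap_injective B K
    have h1 : algebraMap B K s ≠ 0 := fun h => hs (by
      rw [(map_eq_zero_iff _ hinj).mp h]; exact P.zero_mem)
    have h2 : algebraMap B K s' ≠ 0 := fun h => hs' (by
      rw [(map_eq_zero_iff _ hinj).mp h]; exact P.zero_mem)
    exact ⟨b * s' + s * b', s * s', fun h => (hP.mem_or_mem h).elim hs hs', by
      rw [div_add_div _ _ h1 h2, map_add, map_mul, map_mul, map_mul]⟩
  algebraMap_mem' := fun r => ⟨r, 1, fun h => hP.ne_top ((Ideal.eq_top_iff_one _).mpr h), by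
    rw [map_one, div_one]⟩

variable {B : Type u} {K : Type v} [CommRing B] [Field K] [Algebra B K] [FaithfulSMul B K]
    (P : Ideal B) [hP : P.IsPrime]

theorem mem_locSub {a : K} : a ∈ locSub B K P ↔
    ∃ b s : B, s ∉ P ∧ a = algebraMap B K b / algebraMap B K s := Iff.rfl

omit hP in
theorem algebraMap_ne_zero_of_notMem {s : B} (hs : s ∉ P) : algebraMap B K s ≠ 0 := fun h => hs (by
  rw [(map_eq_zero_iff _ (FaithfulSMul.algebraMap_injective B K)).mp h]; exact P.zero_mem)

instance isLocalization_locSub : IsLocalization.AtPrime (locSub B K P) P := by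
  refine (isLocalization_iff _ _).mpr ⟨?_, ?_, ?_⟩
  · rintro ⟨s, hs⟩
    have hs' : s ∉ P := hs
    have h0 := algebraMap_ne_zero_of_notMem (K := K) P hs'
    refine IsUnit.of_mul_eq_one ⟨(algebraMap B K s)⁻¹, ⟨1, s, hs', by rw [map_one, one_div]⟩⟩ ?_
    apply Subtype.ext
    show algebraMap B K s * (algebraMap B K s)⁻¹ = 1
    exact mul_inv_cancel₀ h0
  · rintro ⟨a, b, s, hs, rfl⟩
    refine ⟨(b, ⟨s, hs⟩), ?_⟩
    apply Subtype.ext
    show algebraMap B K b / algebraMap B K s * algebraMap B K s = algebraMap B K b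
    exact div_mul_cancel₀ _ (algebraMap_ne_zero_of_notMem (K := K) P hs)
  · intro a b hab
    refine ⟨1, ?_⟩
    have h1 : algebraMap B K a = algebraMap B K b := congrArg Subtype.val hab
    rw [FaithfulSMul.algebraMap_injective B K h1]

/-- Elements with nonzero value under a homomorphism with kernel `P` are invertible. -/
theorem inv_mem_locSub {s : B} (hs : s ∉ P) : (algebraMap B K s)⁻¹ ∈ locSub B K P :=
  ⟨1, s, hs, by rw [map_one, one_div]⟩

/-- If `K` is the fraction field of `B` it is the fraction field of the localisation. -/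
instance isFractionRing_locSub [IsFractionRing B K] : IsFractionRing (locSub B K P) K := by
  refine IsFractionRing.of_field _ K fun z => ?_
  obtain ⟨x, y, _, h⟩ := IsFractionRing.div_surjective B z
  exact ⟨algebraMap B _ x, algebraMap B _ y, h.symm⟩

end MP55c1e7.D0
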