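import Mathlib

namespace MP55c1e7.D0

open IsLocalRing

universe u

theorem spanFinrank_quotient_lt {A : Type u} [CommRing A] [IsLocalRing A] [IsNoetherianRing A]
    {x : A} (hx : x ∈ maximalIdeal A) (hx2 : x ∉ (maximalIdeal A) ^ 2) :
    ((maximalIdeal A).map (Ideal.Quotient.mk (Ideal.span {x}))).spanFinrank + 1
      ≤ (maximalIdeal A).spanFinrank := by
  classical
  obtain ⟨s, hscard, hs⟩ := Submodule.FG.exists_span_finset_card_eq_spanFinrank
    (IsNoetherian.noetherian (maximalIdeal A))
  have hxs : x ∈ Submodule.span A (s : Set A) := by rw [hs]; exact hx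
  obtain ⟨a, -, ha⟩ := Submodule.mem_span_finset.mp hxs
  have hex : ∃ g ∈ s, a g ∉ maximalIdeal A := by
    by_contra hcon
    push Not at hcon
    apply hx2
    rw [← ha, pow_two]
    refine Ideal.sum_mem _ fun g hg => ?_
    rw [smul_eq_mul]
    refine Ideal.mul_mem_mul (hcon g hg) ?_
    rw [← hs]
    exact Submodule.subset_span hg
  obtain ⟨g, hg, hag⟩ := hex
  have hunit : IsUnit (a g) := by
    by_contra h
    exact hag ((IsLocalRing.mem_maximalIdeal _).mpr h)
  have hmap : (maximalIdeal A).map (Ideal.Quotient.mk (Ideal.span {x})) =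
      Ideal.span ((Ideal.Quotient.mk (Ideal.span {x})) '' ((s.erase g : Finset A) : Set A)) := by
    apply le_antisymm
    · rw [← hs, ← Ideal.submodule_span_eq, Ideal.map_span, Ideal.span_le]
      rintro _ ⟨y, hy, rfl⟩
      by_cases hyg : y = g
      · subst hyg
        have h1 : Ideal.Quotient.mk (Ideal.span {x}) (∑ i ∈ s, a i • i) = 0 := by
          rw [ha]
          exact Ideal.Quotient.eq_zero_iff_mem.mpr (Ideal.mem_span_singleton_self x)
        rw [← Finset.add_sum_erase s _ hg, map_add, smul_eq_mul, map_mul] at h1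
        obtain ⟨u, hu⟩ := hunit
        have h2 : Ideal.Quotient.mk (Ideal.span {x}) y =
            -(Ideal.Quotient.mk (Ideal.span {x}) ((u⁻¹ : Aˣ) : A)) *
              Ideal.Quotient.mk (Ideal.span {x}) (∑ i ∈ s.erase y, a i • i) := by
          have h3 : Ideal.Quotient.mk (Ideal.span {x}) ((u⁻¹ : Aˣ) : A) *
              Ideal.Quotient.mk (Ideal.span {x}) (a y) = 1 := by
            rw [← map_mul, ← hu]; simp
          have h4 : Ideal.Quotient.mk (Ideal.span {x}) (∑ i ∈ s.erase y, a i • i) =
              - (Ideal.Quotient.mk (Ideal.span {x}) (a y) *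
                Ideal.Quotient.mk (Ideal.span {x}) y) := by
            linear_combination h1
          rw [h4]
          linear_combination (-(Ideal.Quotient.mk (Ideal.span {x}) y)) * h3
        show Ideal.Quotient.mk (Ideal.span {x}) y ∈ _
        rw [h2]
        refine Ideal.mul_mem_left _ _ ?_
        rw [map_sum]
        refine Ideal.sum_mem _ fun i hi => ?_
        rw [smul_eq_mul, map_mul]
        exact Ideal.mul_mem_left _ _ (Ideal.subset_span ⟨i, Finset.mem_coe.mpr hi, rfl⟩)
      · exact Ideal.subset_span ⟨y, Finset.mem_coe.mpr (Finset.mem_erase.mpr ⟨hyg, hy⟩), rfl⟩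
    · rw [Ideal.span_le]
      rintro _ ⟨y, hy, rfl⟩
      refine Ideal.mem_map_of_mem _ ?_
      rw [← hs]
      exact Submodule.subset_span (Finset.mem_coe.mpr (Finset.mem_of_mem_erase
        (Finset.mem_coe.mp hy)))
  rw [hmap, ← hscard]
  have h5 := Submodule.spanFinrank_span_le_ncard_of_finite (R := A ⧸ Ideal.span {x})
    (s := (Ideal.Quotient.mk (Ideal.span {x})) '' ((s.erase g : Finset A) : Set A))
    ((Finset.finite_toSet _).image _)
  have h6 : ((Ideal.Quotient.mk (Ideal.span {x})) '' ((s.erase g : Finset A) : Set A)).ncard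
      ≤ (s.erase g).card := by
    refine (Set.ncard_image_le (Finset.finite_toSet _)).trans ?_
    rw [Set.ncard_coe_finset]
  have h7 : (s.erase g).card + 1 = s.card := Finset.card_erase_add_one hg
  have h8 : (Ideal.span ((Ideal.Quotient.mk (Ideal.span {x})) ''
      ((s.erase g : Finset A) : Set A))).spanFinrank ≤ (s.erase g).card := le_trans h5 h6
  omega

theorem le_of_add_one_le {n : ℕ} {D : WithBot ℕ∞} (h : (n : WithBot ℕ∞) + 1 ≤ D + 1) :
    (n : WithBot ℕ∞) ≤ D := by
  induction D with
  | bot =>
    exfalso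
    have : (n : WithBot ℕ∞) + 1 = ((n + 1 : ℕ) : WithBot ℕ∞) := by push_cast; rfl
    rw [this, WithBot.bot_add, le_bot_iff] at h
    exact WithBot.coe_ne_bot h
  | coe a =>
    induction a with
    | top => exact le_top
    | coe a =>
      have : n + 1 ≤ a + 1 := by exact_mod_cast h
      exact_mod_cast (by omega : n ≤ a)

theorem quotient_regular {A : Type u} [CommRing A] [IsRegularLocalRing A] {x : A}
    (hx : x ∈ maximalIdeal A) (hx2 : x ∉ (maximalIdeal A) ^ 2) :
    IsRegularLocalRing (A ⧸ Ideal.span {x}) ∧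
      (∀ _ : IsLocalRing (A ⧸ Ideal.span {x}),
        (maximalIdeal (A ⧸ Ideal.span {x})).spanFinrank + 1 = (maximalIdeal A).spanFinrank) := by
  have hne : Ideal.span {x} ≠ (⊤ : Ideal A) := by
    intro h
    rw [Ideal.span_singleton_eq_top] at h
    exact (IsLocalRing.mem_maximalIdeal _).mp hx h
  have : Nontrivial (A ⧸ Ideal.span {x}) := Ideal.Quotient.nontrivial_iff.mpr hne
  have hloc : IsLocalRing (A ⧸ Ideal.span {x}) :=
    IsLocalRing.of_surjective' (Ideal.Quotient.mk (Ideal.span {x})) Ideal.Quotient.mk_surjective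
  have hmax : maximalIdeal (A ⧸ Ideal.span {x}) =
      (maximalIdeal A).map (Ideal.Quotient.mk (Ideal.span {x})) := by
    symm
    have := IsLocalRing.map_maximalIdeal_of_surjective (Ideal.Quotient.mk (Ideal.span {x}))
      Ideal.Quotient.mk_surjective
    exact this
  have h1 := spanFinrank_quotient_lt hx hx2
  rw [← hmax] at h1
  have h2 : ringKrullDim A ≤ ringKrullDim (A ⧸ Ideal.span {x}) + 1 := by
    have := ringKrullDim_le_ringKrullDim_quotient_add_card ({x} : Finset A)
    simp only [Finset.card_singleton, Nat.cast_one] at this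
    have h := this (by
      intro y hy
      rw [Finset.coe_singleton, Set.mem_singleton_iff] at hy
      subst hy
      rw [IsLocalRing.ringJacobson_eq_maximalIdeal]
      exact hx)
    rwa [Finset.coe_singleton] at h
  have h3 := (isRegularLocalRing_iff A).mp ‹_›
  have h5 : ringKrullDim (A ⧸ Ideal.span {x}) ≤
      ((maximalIdeal (A ⧸ Ideal.span {x})).spanFinrank : WithBot ℕ∞) :=
    ringKrullDim_le_spanFinrank_maximalIdeal _
  have h6 : ((maximalIdeal A).spanFinrank : WithBot ℕ∞) ≤
      ((maximalIdeal (A ⧸ Ideal.span {x})).spanFinrank : WithBot ℕ∞) + 1 := by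
    rw [h3]
    exact h2.trans (add_le_add_left h5 1)
  have h7 : (maximalIdeal A).spanFinrank ≤ (maximalIdeal (A ⧸ Ideal.span {x})).spanFinrank + 1 := by
    exact_mod_cast h6
  have h8 : (maximalIdeal A).spanFinrank = (maximalIdeal (A ⧸ Ideal.span {x})).spanFinrank + 1 :=
    le_antisymm h7 h1
  refine ⟨IsRegularLocalRing.of_spanFinrank_maximalIdeal_le _ ?_, fun _ => h8.symm⟩
  have h9 : ((maximalIdeal (A ⧸ Ideal.span {x})).spanFinrank : WithBot ℕ∞) + 1 ≤
      ringKrullDim (A ⧸ Ideal.span {x}) + 1 := by
    have : ((maximalIdeal A).spanFinrank : WithBot ℕ∞) =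
      ((maximalIdeal (A ⧸ Ideal.span {x})).spanFinrank : WithBot ℕ∞) + 1 := by
      rw [h8]; push_cast; rfl
    rw [← this, h3]
    exact h2
  exact le_of_add_one_le h9

theorem isDomain_aux (d : ℕ) : ∀ (A : Type u) [CommRing A] [IsRegularLocalRing A],
    (maximalIdeal A).spanFinrank = d → IsDomain A := by
  induction d with
  | zero =>
    intro A _ _ h
    have hbot : maximalIdeal A = ⊥ :=
      (Submodule.spanFinrank_eq_zero_iff_eq_bot (IsNoetherian.noetherian _)).mp h
    have hf : IsField A := IsLocalRing.isField_iff_maximalIdeal_eq.mpr hbot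
    exact hf.isDomain
  | succ d ih =>
    intro A _ _ h
    have hne : maximalIdeal A ≠ ⊥ := by
      intro hb
      rw [hb, Submodule.spanFinrank_bot] at h
      omega
    have hfin := minimalPrimes.finite_of_isNoetherianRing A
    have hdim : ringKrullDim A = ((d + 1 : ℕ) : WithBot ℕ∞) := by
      rw [← (isRegularLocalRing_iff A).mp ‹_›, h]
    have hnot : ¬ ((maximalIdeal A : Set A) ⊆
        ⋃ P ∈ insert ((maximalIdeal A) ^ 2) (minimalPrimes A), (P : Set A)) := by
      intro hsub
      obtain ⟨P, hP, hle⟩ := (Ideal.subset_union_prime_finite (hfin.insert _) (f := id)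
        ((maximalIdeal A) ^ 2) ((maximalIdeal A) ^ 2) (fun P hP hP1 _ => by
          rcases Set.mem_insert_iff.mp hP with h | h
          · exact absurd h hP1
          · exact h.1.1)).1 hsub
      rcases Set.mem_insert_iff.mp hP with hP | hP
      · subst hP
        apply hne
        refine Submodule.eq_bot_of_le_smul_of_le_jacobson_bot (maximalIdeal A) _
          (IsNoetherian.noetherian _) ?_ ?_
        · rw [smul_eq_mul, ← pow_two]; exact hle
        · exact IsLocalRing.maximalIdeal_le_jacobson _
      · have hPm : P = maximalIdeal A :=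
          le_antisymm (IsLocalRing.le_maximalIdeal hP.1.1.ne_top) hle
        have h0 : (maximalIdeal A).height = 0 := by
          rw [← hPm]
          have := hP.1.1
          exact Ideal.height_eq_zero_iff.mpr hP
        rw [← IsLocalRing.maximalIdeal_height_eq_ringKrullDim, h0] at hdim
        have h1 : ((0 : ℕ) : WithBot ℕ∞) = ((d + 1 : ℕ) : WithBot ℕ∞) := by
          rw [← hdim]; rfl
        have h2 : (0 : ℕ) = d + 1 := by exact_mod_cast h1
        omega
    obtain ⟨x, hxm, hx⟩ := Set.not_subset.mp hnot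
    simp only [Set.mem_iUnion, not_exists] at hx
    have hx2 : x ∉ (maximalIdeal A) ^ 2 := fun hh => hx _ (Set.mem_insert _ _) hh
    have hxP : ∀ P ∈ minimalPrimes A, x ∉ P := fun P hP hh =>
      hx P (Set.mem_insert_of_mem _ hP) hh
    obtain ⟨hreg, hrank⟩ := quotient_regular hxm hx2
    have hrk := hrank inferInstance
    have hdom : IsDomain (A ⧸ Ideal.span {x}) := ih _ (by omega)
    have hprime : (Ideal.span {x}).IsPrime := (Ideal.Quotient.isDomain_iff_prime _).mp hdom
    obtain ⟨Q, hQ, hQle⟩ := Ideal.exists_minimalPrimes_le (bot_le : ⊥ ≤ Ideal.span {x})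
    have hQp : Q.IsPrime := hQ.1.1
    have hQ0 : Q = ⊥ := by
      refine Submodule.eq_bot_of_le_smul_of_le_jacobson_bot (Ideal.span {x}) _
          (IsNoetherian.noetherian _) ?_ ?_
      · intro q hq
        obtain ⟨a, ha⟩ := Ideal.mem_span_singleton'.mp (hQle hq)
        rw [← ha] at hq ⊢
        have hax : a ∈ Q := (hQp.mem_or_mem hq).resolve_right (hxP Q hQ)
        rw [smul_eq_mul, mul_comm a x]
        exact Ideal.mul_mem_mul (Ideal.mem_span_singleton_self x) hax
      · refine le_trans ?_ (IsLocalRing.maximalIdeal_le_jacobson _)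
        rw [Ideal.span_le, Set.singleton_subset_iff]
        exact hxm
    rw [hQ0] at hQp
    exact IsDomain.of_bot_isPrime A

/-- A regular local ring is a domain. -/
theorem isDomain (A : Type u) [CommRing A] [IsRegularLocalRing A] : IsDomain A :=
  isDomain_aux _ A rfl

theorem span_isPrime {A : Type u} [CommRing A] [IsRegularLocalRing A] {x : A}
    (hx : x ∈ maximalIdeal A) (hx2 : x ∉ (maximalIdeal A) ^ 2) : (Ideal.span {x}).IsPrime := by
  obtain ⟨hreg, -⟩ := quotient_regular hx hx2
  have := isDomain (A ⧸ Ideal.span {x})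
  exact (Ideal.Quotient.isDomain_iff_prime _).mp this

/-- An element of `m` outside `m ^ 2` of a regular local ring is prime. -/
theorem prime_of_notMem_sq {A : Type u} [CommRing A] [IsRegularLocalRing A] {x : A}
    (hx : x ∈ maximalIdeal A) (hx2 : x ∉ (maximalIdeal A) ^ 2) : Prime x := by
  have h0 : x ≠ 0 := by
    rintro rfl
    exact hx2 (Ideal.zero_mem _)
  exact (Ideal.span_singleton_prime h0).mp (span_isPrime hx hx2)

end MP55c1e7.D0
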