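import Mathlib

namespace MP55c1e7.D0

open IsLocalRing

universe u v

/-- Etale over regular is regular (local version). -/
theorem etale_localization_regular (R : Type u) {S : Type v} [CommRing R] [CommRing S]
    [Algebra R S] [IsRegularRing R] [Algebra.Etale R S] (q : Ideal S) [q.IsPrime] :
    IsRegularLocalRing (Localization.AtPrime q) := by
  have hnS : IsNoetherianRing S := Algebra.FiniteType.isNoetherianRing R S
  let p := q.under R
  have hreg := IsRegularRing.isRegularLocalRing_localization p
  let := Localization.AtPrime.algebraOfLiesOver p q
  have hun : Algebra.IsUnramifiedAt R q := inferInstance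
  have h1 := ((Algebra.isUnramifiedAt_iff_map_eq R p q).mp hun).2
  have h2 : (maximalIdeal (Localization.AtPrime p)).map
      (algebraMap (Localization.AtPrime p) (Localization.AtPrime q)) = maximalIdeal _ := by
    rw [← h1, ← Localization.AtPrime.map_eq_maximalIdeal, Ideal.map_map,
      ← IsScalarTower.algebraMap_eq]
  apply IsRegularLocalRing.of_spanFinrank_maximalIdeal_le
  have h3 : (maximalIdeal (Localization.AtPrime q)).spanFinrank ≤
      (maximalIdeal (Localization.AtPrime p)).spanFinrank := by
    rw [← h2]
    exact Ideal.spanFinrank_map_le_of_fg _ (IsNoetherian.noetherian _)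
  have h4 := (isRegularLocalRing_iff _).mp hreg
  have h5 : ringKrullDim (Localization.AtPrime p) ≤ ringKrullDim (Localization.AtPrime q) := by
    rw [IsLocalization.AtPrime.ringKrullDim_eq_height p, 
      IsLocalization.AtPrime.ringKrullDim_eq_height q]
    rw [Ideal.height_eq_height_add_of_liesOver_of_hasGoingDown p q]
    exact_mod_cast le_self_add
  refine le_trans ?_ h5
  rw [← h4]
  exact_mod_cast h3

theorem isRegularRing_of_etale (R : Type u) (S : Type v) [CommRing R] [CommRing S]
    [Algebra R S] [IsRegularRing R] [Algebra.Etale R S] : IsRegularRing S := by
  have hnS : IsNoetherianRing S := Algebra.FiniteType.isNoetherianRing R S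
  rw [isRegularRing_iff]
  intro q hq
  exact etale_localization_regular R q

/-- A localisation of a regular ring is regular. -/
theorem isRegularRing_of_isLocalization {R : Type u} (S : Type v) [CommRing R] [CommRing S]
    [Algebra R S] [IsRegularRing R] (M : Submonoid R) [IsLocalization M S] :
    IsRegularRing S := by
  have hnS : IsNoetherianRing S := IsLocalization.isNoetherianRing M S inferInstance
  rw [isRegularRing_iff]
  intro q hq
  have h1 : IsLocalization.AtPrime (Localization.AtPrime q) (q.comap (algebraMap R S)) :=
    IsLocalization.isLocalization_isLocalization_atPrime_isLocalization M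
      (Localization.AtPrime q) q
  have h2 := IsRegularRing.isRegularLocalRing_localization (q.comap (algebraMap R S))
  exact IsRegularLocalRing.of_ringEquiv (IsLocalization.algEquiv
    (q.comap (algebraMap R S)).primeCompl
    (Localization.AtPrime (q.comap (algebraMap R S))) (Localization.AtPrime q)).toRingEquiv

/-- A smooth algebra over a regular ring is regular. -/
theorem isRegularRing_of_smooth (R : Type u) (S : Type v) [CommRing R] [CommRing S]
    [Algebra R S] [IsRegularRing R] [Algebra.Smooth R S] : IsRegularRing S := by
  have hnS : IsNoetherianRing S := Algebra.FiniteType.isNoetherianRing R S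
  rw [isRegularRing_iff]
  intro q hq
  obtain ⟨f, hf, n, alg, tower, het⟩ :=
    Algebra.IsSmoothAt.exists_isStandardEtale_mvPolynomial (R := R) (p := q)
  have h1 : IsRegularRing (Localization.Away f) :=
    isRegularRing_of_etale (MvPolynomial (Fin n) R) _
  have hdisj : Disjoint (Submonoid.powers f : Set S) (q : Set S) :=
    (Ideal.disjoint_powers_iff_notMem_of_isPrime _).mpr hf
  have hQ : (q.map (algebraMap S (Localization.Away f))).IsPrime :=
    IsLocalization.isPrime_of_isPrime_disjoint (Submonoid.powers f) _ _ hq hdisj
  have hcomap : (q.map (algebraMap S (Localization.Away f))).comap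
      (algebraMap S (Localization.Away f)) = q :=
    IsLocalization.under_map_of_isPrime_disjoint (Submonoid.powers f) _ hq hdisj
  have h2 : IsLocalization.AtPrime
      (Localization.AtPrime (q.map (algebraMap S (Localization.Away f)))) q := by
    have := IsLocalization.isLocalization_isLocalization_atPrime_isLocalization
      (Submonoid.powers f) (Localization.AtPrime (q.map (algebraMap S (Localization.Away f))))
      (q.map (algebraMap S (Localization.Away f)))
    convert this
    exact hcomap.symm
  have h3 := IsRegularRing.isRegularLocalRing_localization
    (q.map (algebraMap S (Localization.Away f)))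
  exact IsRegularLocalRing.of_ringEquiv (IsLocalization.algEquiv q.primeCompl
    (Localization.AtPrime (q.map (algebraMap S (Localization.Away f))))
    (Localization.AtPrime q)).toRingEquiv

end MP55c1e7.D0
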