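import Mathlib
import Pool.Agent.Lib.MP_55c1e7_ag.D0.RegA
import Pool.Agent.Lib.MP_55c1e7_ag.D0.RegB

namespace MP55c1e7.D0

open IsLocalRing
open scoped TensorProduct nonZeroDivisors

universe u v

theorem spanFinrank_le_quotient {A : Type u} [CommRing A] [IsLocalRing A] [IsNoetherianRing A]
    {x : A} (hx2 : x ∈ (maximalIdeal A) ^ 2) :
    (maximalIdeal A).spanFinrank ≤
      ((maximalIdeal A).map (Ideal.Quotient.mk (Ideal.span {x}))).spanFinrank := by
  classical
  obtain ⟨s, hscard, hs⟩ := Submodule.FG.exists_span_finset_card_eq_spanFinrank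
    (IsNoetherian.noetherian ((maximalIdeal A).map (Ideal.Quotient.mk (Ideal.span {x}))))
  have hsurj : Function.Surjective (Ideal.Quotient.mk (Ideal.span {x})) :=
    Ideal.Quotient.mk_surjective
  let T : Finset A := s.image (Function.surjInv hsurj)
  have hmT : (Ideal.span (T : Set A)).map (Ideal.Quotient.mk (Ideal.span {x})) =
      (maximalIdeal A).map (Ideal.Quotient.mk (Ideal.span {x})) := by
    rw [Ideal.map_span, ← hs]
    congr 1
    ext y
    constructor
    · rintro ⟨a, ha, rfl⟩
      obtain ⟨b, hb, rfl⟩ := Finset.mem_image.mp (Finset.mem_coe.mp ha)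
      rw [Function.surjInv_eq hsurj]
      exact hb
    · intro hy
      exact ⟨Function.surjInv hsurj y, Finset.mem_coe.mpr (Finset.mem_image_of_mem _ hy),
        Function.surjInv_eq hsurj y⟩
  have hx : x ∈ maximalIdeal A := Ideal.pow_le_self two_ne_zero hx2
  have hle : maximalIdeal A ≤ Ideal.span (T : Set A) := by
    refine Submodule.le_of_le_smul_of_le_jacobson_bot (I := maximalIdeal A)
      (IsNoetherian.noetherian _) (IsLocalRing.maximalIdeal_le_jacobson _) ?_
    intro a ha
    have h1 : Ideal.Quotient.mk (Ideal.span {x}) a ∈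
        (Ideal.span (T : Set A)).map (Ideal.Quotient.mk (Ideal.span {x})) := by
      rw [hmT]
      exact Ideal.mem_map_of_mem _ ha
    rw [Ideal.mem_map_iff_of_surjective _ hsurj] at h1
    obtain ⟨b, hb, hab⟩ := h1
    rw [Ideal.Quotient.eq] at hab
    have h2 : a = b + (a - b) := by ring
    rw [h2]
    refine Submodule.add_mem_sup hb ?_
    rw [smul_eq_mul, ← pow_two]
    have h3 : a - b ∈ Ideal.span {x} := by
      have := (Ideal.span {x}).neg_mem hab
      rwa [neg_sub] at this
    exact (Ideal.span_singleton_le_iff_mem _).mpr hx2 h3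
  have hge : Ideal.span (T : Set A) ≤ maximalIdeal A := by
    have h1 : Ideal.span (T : Set A) ≤
        ((maximalIdeal A).map (Ideal.Quotient.mk (Ideal.span {x}))).comap
          (Ideal.Quotient.mk (Ideal.span {x})) := by
      rw [← Ideal.map_le_iff_le_comap, hmT]
    refine h1.trans ?_
    rw [Ideal.comap_map_of_surjective _ hsurj, sup_le_iff]
    refine ⟨le_rfl, ?_⟩
    intro a ha
    rw [Ideal.mem_comap, Ideal.mem_bot, Ideal.Quotient.eq_zero_iff_mem] at ha
    exact (Ideal.span_singleton_le_iff_mem _).mpr hx ha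
  have heq : maximalIdeal A = Ideal.span (T : Set A) := le_antisymm hle hge
  have h5 := Submodule.spanFinrank_span_le_ncard_of_finite (R := A)
    (s := (T : Set A)) (Finset.finite_toSet _)
  have h6 : T.card ≤ s.card := Finset.card_image_le
  rw [Set.ncard_coe_finset] at h5
  have h7 : (maximalIdeal A).spanFinrank ≤ T.card := by
    conv_lhs => rw [heq]
    exact h5
  rw [← hscard]
  exact h7.trans h6

/-- If `A` and `A / x` are regular local, `x ≠ 0` in `m`, then `x` is not in `m ^ 2`. -/
theorem notMem_sq_of_quotient_regular {A : Type u} [CommRing A] [IsRegularLocalRing A]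
    {x : A} (hx0 : x ≠ 0) (hreg : IsRegularLocalRing (A ⧸ Ideal.span {x})) :
    x ∉ (maximalIdeal A) ^ 2 := by
  intro hx2
  have hdom := isDomain A
  have h1 := spanFinrank_le_quotient hx2
  have hmax : maximalIdeal (A ⧸ Ideal.span {x}) =
      (maximalIdeal A).map (Ideal.Quotient.mk (Ideal.span {x})) := by
    symm
    exact IsLocalRing.map_maximalIdeal_of_surjective (Ideal.Quotient.mk (Ideal.span {x}))
      Ideal.Quotient.mk_surjective
  rw [← hmax] at h1
  have h2 := (isRegularLocalRing_iff A).mp ‹_›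
  have h3 := (isRegularLocalRing_iff (A ⧸ Ideal.span {x})).mp hreg
  have h4 := ringKrullDim_quotient_succ_le_of_nonZeroDivisor
    (r := x) (mem_nonZeroDivisors_of_ne_zero hx0)
  rw [← h2, ← h3] at h4
  have h5 : (maximalIdeal (A ⧸ Ideal.span {x})).spanFinrank + 1 ≤ (maximalIdeal A).spanFinrank := by
    exact_mod_cast h4
  omega

/-- The reduction of a localisation of a smooth algebra is regular. -/
theorem quotient_localization_regular (O : Type u) [CommRing O] (I : Ideal O)
    [IsRegularRing (O ⧸ I)] (S : Type v) [CommRing S] [Algebra O S] [Algebra.Smooth O S]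
    (M : Submonoid S) (A : Type v) [CommRing A] [Algebra S A] [Algebra O A] [IsScalarTower O S A]
    [IsLocalization M A] :
    IsRegularRing (A ⧸ I.map (algebraMap O A)) := by
  have h1 : IsRegularRing ((O ⧸ I) ⊗[O] S) := isRegularRing_of_smooth (O ⧸ I) _
  let : Algebra ((O ⧸ I) ⊗[O] S) ((O ⧸ I) ⊗[O] A) :=
    (Algebra.TensorProduct.map (AlgHom.id (O ⧸ I) (O ⧸ I)) (IsScalarTower.toAlgHom O S A)).toAlgebra
  have : IsScalarTower (O ⧸ I) ((O ⧸ I) ⊗[O] S) ((O ⧸ I) ⊗[O] A) :=
    .of_algebraMap_eq' ((Algebra.TensorProduct.map (AlgHom.id (O ⧸ I) (O ⧸ I))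
      (IsScalarTower.toAlgHom O S A)).comp_algebraMap).symm
  have h2 := IsLocalization.tensorProduct_tensorProduct_right O (O ⧸ I) M A
    (RingHom.ext fun a => by simp [RingHom.algebraMap_toAlgebra])
  have h3 : IsRegularRing ((O ⧸ I) ⊗[O] A) := isRegularRing_of_isLocalization _
    (M.map (Algebra.TensorProduct.includeRight (R := O) (A := (O ⧸ I))))
  exact IsRegularRing.of_ringEquiv
    (Algebra.TensorProduct.quotIdealMapEquivQuotTensor A I).symm.toRingEquiv

end MP55c1e7.D0
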