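import Mathlib
import Pool.Agent.Lib.MP_55c1e7_ag.D0.RegA
import Pool.Agent.Lib.MP_55c1e7_ag.D0.RegB
import Pool.Agent.Lib.MP_55c1e7_ag.D0.RegC

namespace MP55c1e7.D0

open IsLocalRing
open scoped TensorProduct nonZeroDivisors Polynomial

universe u v

section Exports

variable (O : Type u) {S : Type v} [CommRing O] [CommRing S] [Algebra O S] [IsRegularRing O]
  [Algebra.Smooth O S] (q : Ideal S) [q.IsPrime]

include O in
/-- The local rings of a smooth algebra over a regular ring are regular rings. -/
theorem smooth_localization_isRegularRing : IsRegularRing (Localization.AtPrime q) := by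
  have := isRegularRing_of_smooth O S
  exact isRegularRing_of_isLocalization (Localization.AtPrime q) q.primeCompl

include O in
theorem smooth_localization_isRegularLocalRing :
    IsRegularLocalRing (Localization.AtPrime q) := by
  have := isRegularRing_of_smooth O S
  exact IsRegularRing.isRegularLocalRing_localization q

include O in
theorem smooth_localization_isDomain : IsDomain (Localization.AtPrime q) := by
  have := smooth_localization_isRegularLocalRing O q
  exact isDomain _

/-- `O → S` smooth, `t` a nonzerodivisor of `O` with `O / t` regular: `t` is part of a regular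
system of parameters of each local ring of `S` at a prime containing `t`. -/
theorem algebraMap_notMem_sq (t : O) (ht : t ∈ O⁰) [IsRegularRing (O ⧸ Ideal.span {t})]
    (htq : algebraMap O S t ∈ q) :
    algebraMap O (Localization.AtPrime q) t ∈ maximalIdeal (Localization.AtPrime q) ∧
    algebraMap O (Localization.AtPrime q) t ∉ (maximalIdeal (Localization.AtPrime q)) ^ 2 := by
  have hreg := smooth_localization_isRegularLocalRing O q
  have hdom := smooth_localization_isDomain O q
  have hmem : algebraMap O (Localization.AtPrime q) t ∈ maximalIdeal (Localization.AtPrime q) := by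
    rw [IsScalarTower.algebraMap_apply O S (Localization.AtPrime q),
      ← Localization.AtPrime.map_eq_maximalIdeal]
    exact Ideal.mem_map_of_mem _ htq
  refine ⟨hmem, ?_⟩
  have hq : IsRegularRing (Localization.AtPrime q ⧸
      Ideal.span {algebraMap O (Localization.AtPrime q) t}) := by
    have := quotient_localization_regular O (Ideal.span {t}) S q.primeCompl
      (Localization.AtPrime q)
    rwa [Ideal.map_span, Set.image_singleton] at this
  have hne : Ideal.span {algebraMap O (Localization.AtPrime q) t} ≠
      (⊤ : Ideal (Localization.AtPrime q)) := by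
    intro h
    rw [Ideal.span_singleton_eq_top] at h
    exact (IsLocalRing.mem_maximalIdeal _).mp hmem h
  have : Nontrivial (Localization.AtPrime q ⧸
      Ideal.span {algebraMap O (Localization.AtPrime q) t}) := Ideal.Quotient.nontrivial_iff.mpr hne
  have hloc : IsLocalRing (Localization.AtPrime q ⧸
      Ideal.span {algebraMap O (Localization.AtPrime q) t}) :=
    IsLocalRing.of_surjective' (Ideal.Quotient.mk _) Ideal.Quotient.mk_surjective
  have hreg' := IsRegularLocalRing.of_isRegularRing_of_isLocalRing
    (Localization.AtPrime q ⧸ Ideal.span {algebraMap O (Localization.AtPrime q) t})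
  refine notMem_sq_of_quotient_regular ?_ hreg'
  have hflat : Module.Flat O (Localization.AtPrime q) := Module.Flat.trans O S _
  have h1 : IsSMulRegular (Localization.AtPrime q) (algebraMap O (Localization.AtPrime q) t) := by
    have h2 : IsSMulRegular O t := by
      intro a b hab
      exact (mem_nonZeroDivisors_iff_right.mp ht (a - b) (by
        simp only [smul_eq_mul] at hab
        linear_combination hab) |> sub_eq_zero.mp)
    exact IsSMulRegular.of_flat h2
  intro h0
  have h3 : algebraMap O (Localization.AtPrime q) t • (1 : Localization.AtPrime q) =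
      algebraMap O (Localization.AtPrime q) t • 0 := by
    rw [smul_zero, h0, zero_smul]
  exact one_ne_zero (h1 h3)

end Exports

/-- The same for a discrete valuation ring. -/
theorem uniformizer_notMem_sq (O : Type u) {S : Type v} [CommRing O] [IsDomain O]
    [IsDiscreteValuationRing O] [CommRing S] [Algebra O S]
    [Algebra.Smooth O S] (q : Ideal S) [q.IsPrime] (t : O) (ht : Irreducible t)
    (htq : algebraMap O S t ∈ q) :
    algebraMap O (Localization.AtPrime q) t ∈ maximalIdeal (Localization.AtPrime q) ∧
    algebraMap O (Localization.AtPrime q) t ∉ (maximalIdeal (Localization.AtPrime q)) ^ 2 := by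
  have hmax : Ideal.span {t} = maximalIdeal O := ht.maximalIdeal_eq.symm
  have h1 : (Ideal.span {t}).IsMaximal := by rw [hmax]; infer_instance
  let := Ideal.Quotient.field (Ideal.span {t})
  have h2 : IsRegularRing (O ⧸ Ideal.span {t}) := inferInstance
  exact algebraMap_notMem_sq O q t (mem_nonZeroDivisors_of_ne_zero ht.ne_zero) htq

section Sqrt

variable {A : Type u} [CommRing A]

theorem etale_adjoinRoot (f : A[X]) (hf : f.Monic)
    (hsep : ∃ p₁ p₂, Polynomial.derivative f * p₁ + f * p₂ = 1) :
    Algebra.Etale A (AdjoinRoot f) := by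
  let P : StandardEtalePair A :=
    { f := f
      monic_f := hf
      g := 1
      cond := by
        obtain ⟨p₁, p₂, h⟩ := hsep
        exact ⟨p₁, p₂, 0, by rw [h, pow_zero]⟩ }
  have e1 := P.equivAwayAdjoinRoot
  have h1 : IsLocalization.Away (1 : AdjoinRoot f)
      (Localization.Away (AdjoinRoot.mk P.f P.g)) := by
    have h2 : AdjoinRoot.mk P.f P.g = (1 : AdjoinRoot f) := map_one _
    rw [h2]
    infer_instance
  have e2 : AdjoinRoot f ≃ₐ[AdjoinRoot f] (Localization.Away (AdjoinRoot.mk P.f P.g)) :=
    IsLocalization.atOne (AdjoinRoot f) (Localization.Away (AdjoinRoot.mk P.f P.g))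
  exact Algebra.Etale.of_equiv (e1.trans (e2.restrictScalars A).symm)

/-- A regular local ring has a local, flat, unramified, regular extension in which a given
monic polynomial `f` with `(f, f') = 1` has a root. -/
theorem exists_etale_root (A : Type u) [CommRing A] [IsLocalRing A] [IsRegularRing A]
    (f : A[X]) (hf : f.Monic) (hdeg : 0 < f.natDegree)
    (hsep : ∃ p₁ p₂, Polynomial.derivative f * p₁ + f * p₂ = 1) :
    ∃ (A' : Type u) (_ : CommRing A') (_ : IsLocalRing A') (_ : Algebra A A'),
      IsRegularRing A' ∧ IsLocalHom (algebraMap A A') ∧ Module.Flat A A' ∧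
      Module.FaithfullyFlat A A' ∧
      (maximalIdeal A).map (algebraMap A A') = maximalIdeal A' ∧
      ∃ r : A', Polynomial.aeval r f = 0 := by
  have het := etale_adjoinRoot f hf hsep
  have hfree : Module.Free A (AdjoinRoot f) := hf.free_adjoinRoot
  have hnt : Nontrivial (AdjoinRoot f) := by
    refine Ideal.Quotient.nontrivial_iff.mpr ?_
    rw [Ne, Ideal.span_singleton_eq_top]
    intro hu
    have := hf.isUnit_iff.mp hu
    rw [this, Polynomial.natDegree_one] at hdeg
    omega
  have hff : Module.FaithfullyFlat A (AdjoinRoot f) := inferInstance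
  obtain ⟨⟨q, hq⟩, hqm⟩ := PrimeSpectrum.comap_surjective_of_faithfullyFlat
    (A := A) (B := AdjoinRoot f) ⟨maximalIdeal A, inferInstance⟩
  have hqm' : q.comap (algebraMap A (AdjoinRoot f)) = maximalIdeal A :=
    congrArg PrimeSpectrum.asIdeal hqm
  have hlo : q.LiesOver (maximalIdeal A) := ⟨hqm'.symm⟩
  have hreg : IsRegularRing (AdjoinRoot f) := isRegularRing_of_etale A _
  let := Localization.AtPrime.algebraOfLiesOver (maximalIdeal A) q
  have hun : Algebra.IsUnramifiedAt A q := inferInstance
  have h1 := ((Algebra.isUnramifiedAt_iff_map_eq A (maximalIdeal A) q).mp hun).2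
  have hflat : Module.Flat A (Localization.AtPrime q) := Module.Flat.trans A (AdjoinRoot f) _
  have hlh : IsLocalHom (algebraMap A (Localization.AtPrime q)) := by
    refine ((IsLocalRing.local_hom_TFAE _).out 0 2).mpr ?_
    rw [h1]
  refine ⟨Localization.AtPrime q, inferInstance, inferInstance, inferInstance,
    isRegularRing_of_isLocalization (Localization.AtPrime q) q.primeCompl, hlh, hflat,
    Module.FaithfullyFlat.of_flat_of_isLocalHom, h1,
    algebraMap (AdjoinRoot f) _ (AdjoinRoot.root f), ?_⟩
  rw [Polynomial.aeval_algebraMap_apply]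
  rw [AdjoinRoot.aeval_eq, AdjoinRoot.mk_self, map_zero]

/-- The extension by a square root of a unit. -/
theorem exists_sqrt (A : Type u) [CommRing A] [IsLocalRing A] [IsRegularRing A]
    (h2 : IsUnit (2 : A)) (u : A) (hu : IsUnit u) :
    ∃ (A' : Type u) (_ : CommRing A') (_ : IsLocalRing A') (_ : Algebra A A'),
      IsRegularRing A' ∧ IsLocalHom (algebraMap A A') ∧ Module.Flat A A' ∧
      Module.FaithfullyFlat A A' ∧
      (maximalIdeal A).map (algebraMap A A') = maximalIdeal A' ∧
      ∃ r : A', r ^ 2 = algebraMap A A' u ∧ IsUnit r := by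
  obtain ⟨v, hv⟩ := h2.exists_left_inv
  obtain ⟨w, hw⟩ := hu.exists_left_inv
  obtain ⟨A', i1, i2, i3, h1, h2, h3, h3', h4, r, hr⟩ := exists_etale_root A
    (Polynomial.X ^ 2 - Polynomial.C u) (Polynomial.monic_X_pow_sub_C u two_ne_zero)
    (by rw [Polynomial.natDegree_X_pow_sub_C]; norm_num)
    ⟨Polynomial.C (v * w) * Polynomial.X, - Polynomial.C w, by
      simp only [Polynomial.derivative_sub, Polynomial.derivative_X_pow, Polynomial.derivative_C,
        map_mul]
      have e1 : (Polynomial.C v : A[X]) * 2 = 1 := by
        rw [← Polynomial.C_ofNat, ← Polynomial.C_mul, hv, Polynomial.C_1]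
      have e2 : (Polynomial.C w : A[X]) * Polynomial.C u = 1 := by
        rw [← Polynomial.C_mul, hw, Polynomial.C_1]
      push_cast
      simp only [Polynomial.C_ofNat]
      linear_combination (Polynomial.C w * Polynomial.X ^ 2) * e1 + e2⟩
  refine ⟨A', i1, i2, i3, h1, h2, h3, h3', h4, r, ?_, ?_⟩
  · simpa [sub_eq_zero] using hr
  · have h5 : r ^ 2 = algebraMap A A' u := by simpa [sub_eq_zero] using hr
    have h6 : IsUnit (r ^ 2) := by rw [h5]; exact hu.map _
    exact (isUnit_pow_iff two_ne_zero).mp h6

end Sqrt

end MP55c1e7.D0
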