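import Mathlib
import Pool.Agent.Lib.MP_55c1e7_ag.D0.RegA

namespace MP55c1e7.D0

open IsLocalRing

universe u v w

/-- Dropping a member of a generating family which lies in `m ^ 2`. -/
theorem spanFinrank_le_of_mem_sq {B : Type u} [CommRing B] [IsLocalRing B] [IsNoetherianRing B]
    {ι : Type w} [DecidableEq ι] (r : ι → B) (T : Finset ι)
    (hr : Ideal.span (r '' (T : Set ι)) = maximalIdeal B) (i : ι) (hi : i ∈ T)
    (hsq : r i ∈ (maximalIdeal B) ^ 2) :
    (maximalIdeal B).spanFinrank + 1 ≤ T.card := by
  have hle : maximalIdeal B ≤ Ideal.span (r '' ((T.erase i : Finset ι) : Set ι)) := by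
    refine Submodule.le_of_le_smul_of_le_jacobson_bot (I := maximalIdeal B)
      (IsNoetherian.noetherian _) (IsLocalRing.maximalIdeal_le_jacobson _) ?_
    conv_lhs => rw [← hr]
    rw [Ideal.span_le]
    rintro _ ⟨j, hj, rfl⟩
    by_cases hji : j = i
    · subst hji
      refine Submodule.mem_sup_right ?_
      rw [smul_eq_mul, ← pow_two]
      exact hsq
    · refine Submodule.mem_sup_left (Ideal.subset_span ⟨j, ?_, rfl⟩)
      exact Finset.mem_coe.mpr (Finset.mem_erase.mpr ⟨hji, Finset.mem_coe.mp hj⟩)
  have hge : Ideal.span (r '' ((T.erase i : Finset ι) : Set ι)) ≤ maximalIdeal B := by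
    rw [← hr]
    apply Ideal.span_mono
    apply Set.image_mono
    exact_mod_cast Finset.erase_subset i T
  have heq := le_antisymm hle hge
  have h5 := Submodule.spanFinrank_span_le_ncard_of_finite (R := B)
    (s := r '' ((T.erase i : Finset ι) : Set ι)) ((Finset.finite_toSet _).image _)
  have h6 : (r '' ((T.erase i : Finset ι) : Set ι)).ncard ≤ (T.erase i).card := by
    refine (Set.ncard_image_le (Finset.finite_toSet _)).trans ?_
    rw [Set.ncard_coe_finset]
  have h7 : (maximalIdeal B).spanFinrank ≤ (T.erase i).card := by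
    conv_lhs => rw [heq]
    exact h5.trans h6
  have h8 := Finset.card_erase_add_one hi
  omega

theorem params_quotient_regular {A : Type u} [CommRing A] [IsRegularLocalRing A]
    {ι : Type w} [Fintype ι] [DecidableEq ι] (r : ι → A)
    (hr : Ideal.span (Set.range r) = maximalIdeal A)
    (hcard : Fintype.card ι = (maximalIdeal A).spanFinrank) (s : Finset ι) :
    ∀ (B : Type u) [CommRing B] (φ : A →+* B), Function.Surjective φ →
      RingHom.ker φ = Ideal.span (r '' (s : Set ι)) →
      IsRegularLocalRing B ∧ ∀ _ : IsLocalRing B,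
        (maximalIdeal B).spanFinrank + s.card = Fintype.card ι := by
  induction s using Finset.induction_on with
  | empty =>
    intro B _ φ hφ hker
    rw [Finset.coe_empty, Set.image_empty, Ideal.span_empty] at hker
    have hinj : Function.Injective φ := (RingHom.injective_iff_ker_eq_bot φ).mpr hker
    let e : A ≃+* B := RingEquiv.ofBijective φ ⟨hinj, hφ⟩
    have h1 : IsRegularLocalRing B := IsRegularLocalRing.of_ringEquiv e
    refine ⟨h1, fun _ => ?_⟩
    rw [Finset.card_empty, add_zero, hcard, ← IsLocalRing.map_ringEquiv_maximalIdeal e,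
      Ideal.spanFinrank_map_eq_of_ringEquiv]
  | insert i s his ih =>
    intro B _ φ hφ hker
    obtain ⟨hB', hrank⟩ := ih (A ⧸ Ideal.span (r '' (s : Set ι)))
      (Ideal.Quotient.mk _) Ideal.Quotient.mk_surjective (Ideal.mk_ker)
    have hrank := hrank inferInstance
    have hmax : maximalIdeal (A ⧸ Ideal.span (r '' (s : Set ι))) =
        (maximalIdeal A).map (Ideal.Quotient.mk _) := by
      symm
      exact IsLocalRing.map_maximalIdeal_of_surjective _ Ideal.Quotient.mk_surjective
    have hgen : Ideal.span ((fun j => Ideal.Quotient.mk (Ideal.span (r '' (s : Set ι))) (r j)) ''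
        ((sᶜ : Finset ι) : Set ι)) = maximalIdeal (A ⧸ Ideal.span (r '' (s : Set ι))) := by
      rw [hmax, ← hr, Ideal.map_span]
      apply le_antisymm
      · apply Ideal.span_mono
        rintro _ ⟨j, -, rfl⟩
        exact ⟨r j, ⟨j, rfl⟩, rfl⟩
      · rw [Ideal.span_le]
        rintro _ ⟨_, ⟨j, rfl⟩, rfl⟩
        by_cases hj : j ∈ s
        · have : Ideal.Quotient.mk (Ideal.span (r '' (s : Set ι))) (r j) = 0 :=
            Ideal.Quotient.eq_zero_iff_mem.mpr (Ideal.subset_span ⟨j, hj, rfl⟩)
          rw [this]
          exact Ideal.zero_mem _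
        · exact Ideal.subset_span ⟨j, by simpa using hj, rfl⟩
    have hmem : Ideal.Quotient.mk (Ideal.span (r '' (s : Set ι))) (r i) ∈
        maximalIdeal (A ⧸ Ideal.span (r '' (s : Set ι))) := by
      rw [← hgen]
      exact Ideal.subset_span ⟨i, by simpa using his, rfl⟩
    have hnsq : Ideal.Quotient.mk (Ideal.span (r '' (s : Set ι))) (r i) ∉
        (maximalIdeal (A ⧸ Ideal.span (r '' (s : Set ι)))) ^ 2 := by
      intro hsq
      have h1 := spanFinrank_le_of_mem_sq
        (fun j => Ideal.Quotient.mk (Ideal.span (r '' (s : Set ι))) (r j)) sᶜ hgen i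
        (by simpa using his) hsq
      have h2 := Finset.card_compl_add_card s
      omega
    obtain ⟨hreg, hrk⟩ := quotient_regular hmem hnsq
    have hrk := hrk inferInstance
    let ψ : A →+* (A ⧸ Ideal.span (r '' (s : Set ι))) ⧸
        Ideal.span {Ideal.Quotient.mk (Ideal.span (r '' (s : Set ι))) (r i)} :=
      (Ideal.Quotient.mk _).comp (Ideal.Quotient.mk _)
    have hψ : Function.Surjective ψ :=
      Ideal.Quotient.mk_surjective.comp Ideal.Quotient.mk_surjective
    have hkψ : RingHom.ker ψ = RingHom.ker φ := by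
      rw [hker, ← RingHom.comap_ker, Ideal.mk_ker]
      have : (Ideal.span {Ideal.Quotient.mk (Ideal.span (r '' (s : Set ι))) (r i)}) =
          (Ideal.span {r i}).map (Ideal.Quotient.mk (Ideal.span (r '' (s : Set ι)))) := by
        rw [Ideal.map_span, Set.image_singleton]
      rw [this, Ideal.comap_map_of_surjective _ Ideal.Quotient.mk_surjective]
      have h3 : (⊥ : Ideal (A ⧸ Ideal.span (r '' (s : Set ι)))).comap (Ideal.Quotient.mk _) =
          Ideal.span (r '' (s : Set ι)) := by
        rw [← RingHom.ker_eq_comap_bot, Ideal.mk_ker]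
      rw [h3, Finset.coe_insert, Set.image_insert_eq, Ideal.span_insert]
    let e : ((A ⧸ Ideal.span (r '' (s : Set ι))) ⧸
        Ideal.span {Ideal.Quotient.mk (Ideal.span (r '' (s : Set ι))) (r i)}) ≃+* B :=
      (RingHom.quotientKerEquivOfSurjective hψ).symm.trans
        ((Ideal.quotEquivOfEq hkψ).trans (RingHom.quotientKerEquivOfSurjective hφ))
    have h1 : IsRegularLocalRing B := IsRegularLocalRing.of_ringEquiv e
    refine ⟨h1, fun _ => ?_⟩
    rw [Finset.card_insert_of_notMem his, ← IsLocalRing.map_ringEquiv_maximalIdeal e,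
      Ideal.spanFinrank_map_eq_of_ringEquiv]
    omega

/-- In a regular local ring each ideal generated by a part of a regular system of parameters
is prime, with regular quotient. -/
theorem span_params_isPrime {A : Type u} [CommRing A] [IsRegularLocalRing A]
    {ι : Type w} [Fintype ι] (r : ι → A)
    (hr : Ideal.span (Set.range r) = maximalIdeal A)
    (hcard : ringKrullDim A = (Fintype.card ι : WithBot ℕ∞)) (s : Set ι) :
    (Ideal.span (r '' s)).IsPrime ∧ IsRegularLocalRing (A ⧸ Ideal.span (r '' s)) := by
  classical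
  have h1 : Fintype.card ι = (maximalIdeal A).spanFinrank := by
    have := (isRegularLocalRing_iff A).mp ‹_›
    rw [hcard] at this
    exact_mod_cast this.symm
  have h2 := (params_quotient_regular r hr h1 s.toFinset (A ⧸ Ideal.span (r '' s))
    (Ideal.Quotient.mk _) Ideal.Quotient.mk_surjective (by rw [Ideal.mk_ker, Set.coe_toFinset])).1
  have := isDomain (A ⧸ Ideal.span (r '' s))
  exact ⟨(Ideal.Quotient.isDomain_iff_prime _).mp this, h2⟩

/-- The members of a regular system of parameters are prime elements. -/
theorem prime_param {A : Type u} [CommRing A] [IsRegularLocalRing A]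
    {ι : Type w} [Fintype ι] (r : ι → A)
    (hr : Ideal.span (Set.range r) = maximalIdeal A)
    (hcard : ringKrullDim A = (Fintype.card ι : WithBot ℕ∞)) (i : ι) : Prime (r i) := by
  classical
  have h1 : Fintype.card ι = (maximalIdeal A).spanFinrank := by
    have := (isRegularLocalRing_iff A).mp ‹_›
    rw [hcard] at this
    exact_mod_cast this.symm
  refine prime_of_notMem_sq (by rw [← hr]; exact Ideal.subset_span ⟨i, rfl⟩) ?_
  intro hsq
  have h2 := spanFinrank_le_of_mem_sq r Finset.univ (by simpa using hr) i (Finset.mem_univ i) hsq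
  rw [Finset.card_univ] at h2
  omega

end MP55c1e7.D0
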