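import Mathlib
import Pool.Agent.Lib.MP_55c1e7_ag.CH.Nf
import Pool.Agent.Lib.MP_55c1e7_ag.D0.RegD
import Pool.Agent.Lib.MP_55c1e7_ag.D0.RegE

namespace MP55c1e7.D0

open IsLocalRing MvPolynomial
open Pool.Agent.Lib.MP_55c1e7_ag.CH (rel QR SmoothData Ind chartEquiv adjoin_smooth)

universe u v

section Smooth

variable {O : Type u} [CommRing O]

/-- The smoothness data of the affine curve `w ^ 2 = x ^ 4 + 1` (third power). -/
noncomputable def sdata (c : O) (hc : 2 * c = 1) :
    SmoothData (fun i : Fin 3 => (X i : MvPolynomial (Fin 3) O)) where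
  D := fun i => pderiv i
  A := fun _ => C c
  B := fun i => C (c ^ 2) * X i
  off := by
    intro i j hij
    exact pderiv_X_of_ne hij.symm
  diag := by
    intro i
    rw [pderiv_X_self]
    have h1 : (2 : MvPolynomial (Fin 3) O) * C c = 1 := by
      rw [← map_ofNat (C : O →+* MvPolynomial (Fin 3) O) 2, ← C_mul, hc, C_1]
    rw [C_pow]
    linear_combination (X i ^ 4 + 1 - X i ^ 4 * (2 * C c + 1)) * h1

end Smooth

section Ring

variable {O : Type u} [CommRing O] {K : Type v} [Field K] [Algebra O K]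
  (x w : Fin 3 → K)

/-- The ring `O[x_0,x_1,x_2,w_0,w_1,w_2]` inside `K`. -/
abbrev BB (O : Type u) [CommRing O] {K : Type v} [Field K] [Algebra O K] (x w : Fin 3 → K) :
    Subalgebra O K := Algebra.adjoin O (Set.range (Sum.elim x w))

variable (hrel : ∀ i, w i ^ 2 = x i ^ 4 + 1) (hind : Ind O x w)

include hrel hind in
theorem BB_smooth (h2 : IsUnit (2 : O)) : Algebra.Smooth O (BB O x w) := by
  obtain ⟨c, hc⟩ := h2.exists_right_inv
  exact adjoin_smooth (fun i => X i) x w (fun i => by rw [aeval_X]; exact hrel i) hind (sdata c hc)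

/-- The generators as elements of `BB`. -/
def bx (i : Fin 3) : BB O x w := ⟨x i, Algebra.subset_adjoin ⟨Sum.inl i, rfl⟩⟩

def bw (i : Fin 3) : BB O x w := ⟨w i, Algebra.subset_adjoin ⟨Sum.inr i, rfl⟩⟩

theorem bw_sq (i : Fin 3) (h : w i ^ 2 = x i ^ 4 + 1) :
    bw (O := O) x w i ^ 2 = bx (O := O) x w i ^ 4 + 1 :=
  Subtype.ext h

/-- The point `x = 0`, `w = 1` with values in an `O`-algebra (on the quotient ring). -/
noncomputable def rhoQ (O : Type u) [CommRing O] (κ : Type*) [CommRing κ] [Algebra O κ] :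
    QR (fun i : Fin 3 => (X i : MvPolynomial (Fin 3) O)) →ₐ[O] κ :=
  Ideal.Quotient.liftₐ (Ideal.span (Set.range (rel (fun i : Fin 3 => (X i : MvPolynomial (Fin 3) O)))))
    (aeval (Sum.elim (fun _ => 0) (fun _ => 1) : Fin 3 ⊕ Fin 3 → κ)) (by
      intro a ha
      rw [← RingHom.mem_ker]
      refine (Ideal.span_le.mpr ?_) ha
      rintro _ ⟨i, rfl⟩
      rw [SetLike.mem_coe, RingHom.mem_ker]
      simp [rel])

theorem rhoQ_mk (O : Type u) [CommRing O] (κ : Type*) [CommRing κ] [Algebra O κ]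
    (p : MvPolynomial (Fin 3 ⊕ Fin 3) O) :
    rhoQ O κ (Ideal.Quotient.mk _ p) =
      aeval (Sum.elim (fun _ => 0) (fun _ => 1) : Fin 3 ⊕ Fin 3 → κ) p := rfl

/-- `BB` is the ring `QR`. -/
noncomputable def ceq : QR (fun i : Fin 3 => (X i : MvPolynomial (Fin 3) O)) ≃ₐ[O] BB O x w :=
  chartEquiv (fun i => X i) x w (fun i => by rw [aeval_X]; exact hrel i) hind

theorem ceq_mk (p : MvPolynomial (Fin 3 ⊕ Fin 3) O) :
    ((ceq x w hrel hind (Ideal.Quotient.mk _ p) : BB O x w) : K) = aeval (Sum.elim x w) p := rfl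

/-- The point `x = 0`, `w = 1` with values in an `O`-algebra. -/
noncomputable def rho (κ : Type*) [CommRing κ] [Algebra O κ] : BB O x w →ₐ[O] κ :=
  (rhoQ O κ).comp (ceq x w hrel hind).symm.toAlgHom

theorem rho_ceq (κ : Type*) [CommRing κ] [Algebra O κ] (p : MvPolynomial (Fin 3 ⊕ Fin 3) O) :
    rho x w hrel hind κ (ceq x w hrel hind (Ideal.Quotient.mk _ p)) =
      aeval (Sum.elim (fun _ => 0) (fun _ => 1) : Fin 3 ⊕ Fin 3 → κ) p := by
  rw [← rhoQ_mk]
  show rhoQ O κ ((ceq x w hrel hind).symm (ceq x w hrel hind (Ideal.Quotient.mk _ p))) = _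
  rw [AlgEquiv.symm_apply_apply]

theorem bx_eq (i : Fin 3) :
    bx (O := O) x w i = ceq x w hrel hind (Ideal.Quotient.mk _ (X (Sum.inl i))) := by
  apply Subtype.ext
  rw [ceq_mk, aeval_X]
  rfl

theorem bw_eq (i : Fin 3) :
    bw (O := O) x w i = ceq x w hrel hind (Ideal.Quotient.mk _ (X (Sum.inr i))) := by
  apply Subtype.ext
  rw [ceq_mk, aeval_X]
  rfl

theorem rho_bx (κ : Type*) [CommRing κ] [Algebra O κ] (i : Fin 3) :
    rho x w hrel hind κ (bx x w i) = 0 := by
  rw [bx_eq x w hrel hind, rho_ceq, aeval_X]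
  rfl

theorem rho_bw (κ : Type*) [CommRing κ] [Algebra O κ] (i : Fin 3) :
    rho x w hrel hind κ (bw x w i) = 1 := by
  rw [bw_eq x w hrel hind, rho_ceq, aeval_X]
  rfl

/-- Every element of `BB` is a constant modulo the ideal of the section. -/
theorem exists_const (b : BB O x w) :
    ∃ o : O, b - algebraMap O (BB O x w) o ∈
      Ideal.span (Set.range (bx (O := O) x w) ∪ Set.range (fun i => bw (O := O) x w i - 1)) := by
  obtain ⟨b, hb⟩ := b
  induction hb using Algebra.adjoin_induction with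
  | mem y hy =>
    obtain ⟨i, rfl⟩ := hy
    cases i with
    | inl i =>
      refine ⟨0, ?_⟩
      rw [map_zero, sub_zero]
      exact Ideal.subset_span (Or.inl ⟨i, rfl⟩)
    | inr i =>
      refine ⟨1, ?_⟩
      rw [map_one]
      exact Ideal.subset_span (Or.inr ⟨i, rfl⟩)
  | algebraMap r =>
    refine ⟨r, ?_⟩
    convert Ideal.zero_mem _
    exact sub_self _
  | add y z hy hz h1 h2 =>
    obtain ⟨a, ha⟩ := h1
    obtain ⟨b, hb⟩ := h2
    refine ⟨a + b, ?_⟩
    have := Ideal.add_mem _ ha hb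
    convert this using 1
    rw [map_add]
    apply Subtype.ext
    simp only [AddSubgroupClass.coe_sub, AddMemClass.coe_add]
    ring
  | mul y z hy hz h1 h2 =>
    obtain ⟨a, ha⟩ := h1
    obtain ⟨b, hb⟩ := h2
    refine ⟨a * b, ?_⟩
    have := Ideal.add_mem _ (Ideal.mul_mem_left _ (⟨z, hz⟩ : BB O x w) ha)
      (Ideal.mul_mem_left _ (algebraMap O (BB O x w) a) hb)
    convert this using 1
    rw [map_mul]
    apply Subtype.ext
    simp only [AddSubgroupClass.coe_sub, AddMemClass.coe_add, MulMemClass.coe_mul]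
    ring

end Ring

end MP55c1e7.D0
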