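import Mathlib
import Pool.Agent.Lib.MP_55c1e7_ag.D0.RingR
import Pool.Agent.Lib.MP_55c1e7_ag.D0.LocSub

namespace MP55c1e7.D0

open IsLocalRing MvPolynomial
open Pool.Agent.Lib.MP_55c1e7_ag.CH (rel QR SmoothData Ind chartEquiv adjoin_smooth)

universe u v

/-- Three points `(x i, w i)` of `w ^ 2 = x ^ 4 + 1` in a field `K` over a discrete valuation
ring `O` with uniformizer `t`, residue characteristic not `2`. -/
structure Cub (O : Type u) (K : Type v) [CommRing O] [IsDomain O] [IsDiscreteValuationRing O]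
    [Field K] [Algebra O K] where
  x : Fin 3 → K
  w : Fin 3 → K
  rel : ∀ i, w i ^ 2 = x i ^ 4 + 1
  ind : Ind O x w
  t : O
  ht : Irreducible t
  h2 : IsUnit (2 : O)

namespace Cub

variable {O : Type u} {K : Type v} [CommRing O] [IsDomain O] [IsDiscreteValuationRing O]
  [Field K] [Algebra O K] (C : Cub O K)

/-- The coordinate ring of `E ^ 3`. -/
abbrev B : Subalgebra O K := BB O C.x C.w

instance : FaithfulSMul C.B K := inferInstance

instance : IsDomain C.B := inferInstance

theorem t_isMaximal : (Ideal.span {C.t}).IsMaximal := by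
  rw [← C.ht.maximalIdeal_eq]
  infer_instance

/-- The section `x = 0, w = 1` modulo `t`. -/
noncomputable def sec : C.B →ₐ[O] (O ⧸ Ideal.span {C.t}) :=
  rho C.x C.w C.rel C.ind (O ⧸ Ideal.span {C.t})

/-- The maximal ideal `(t, x, w - 1)`. -/
noncomputable def P : Ideal C.B := RingHom.ker C.sec

instance : C.P.IsMaximal := by
  have := C.t_isMaximal
  let := Ideal.Quotient.field (Ideal.span {C.t})
  refine RingHom.ker_isMaximal_of_surjective C.sec.toRingHom ?_
  intro a
  obtain ⟨o, rfl⟩ := Ideal.Quotient.mk_surjective a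
  exact ⟨algebraMap O C.B o, C.sec.commutes o⟩

instance : C.P.IsPrime := inferInstance

theorem mem_P {b : C.B} : b ∈ C.P ↔ C.sec b = 0 := Iff.rfl

theorem t_mem_P : algebraMap O C.B C.t ∈ C.P := by
  rw [mem_P, AlgHom.commutes]
  exact Ideal.Quotient.eq_zero_iff_mem.mpr (Ideal.mem_span_singleton_self _)

theorem bx_mem_P (i : Fin 3) : bx C.x C.w i ∈ C.P := by
  rw [mem_P]
  exact rho_bx _ _ _ _ _ i

theorem bw_sub_one_mem_P (i : Fin 3) : bw C.x C.w i - 1 ∈ C.P := by
  rw [mem_P, map_sub, map_one, sub_eq_zero]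
  exact rho_bw _ _ _ _ _ i

theorem P_eq : C.P = Ideal.span ({algebraMap O C.B C.t} ∪
    (Set.range (bx (O := O) C.x C.w) ∪ Set.range (fun i => bw (O := O) C.x C.w i - 1))) := by
  apply le_antisymm
  · intro b hb
    obtain ⟨o, ho⟩ := exists_const C.x C.w b
    have h1 : b - algebraMap O C.B o ∈ C.P := by
      refine (Ideal.span_le.mpr ?_) ho
      rintro _ (⟨i, rfl⟩ | ⟨i, rfl⟩)
      · exact C.bx_mem_P i
      · exact C.bw_sub_one_mem_P i
    have h2 : algebraMap O C.B o ∈ C.P := by
      have := C.P.sub_mem hb h1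
      rwa [sub_sub_cancel] at this
    rw [mem_P, AlgHom.commutes] at h2
    have h3 : o ∈ Ideal.span {C.t} := Ideal.Quotient.eq_zero_iff_mem.mp h2
    obtain ⟨a, rfl⟩ := Ideal.mem_span_singleton'.mp h3
    have h4 : b = (b - algebraMap O C.B (a * C.t)) + algebraMap O C.B (a * C.t) := by ring
    rw [h4]
    refine Ideal.add_mem _ (Ideal.span_mono Set.subset_union_right ho) ?_
    rw [map_mul]
    exact Ideal.mul_mem_left _ _ (Ideal.subset_span (Or.inl rfl))
  · rw [Ideal.span_le]
    rintro _ (rfl | ⟨i, rfl⟩ | ⟨i, rfl⟩)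
    · exact C.t_mem_P
    · exact C.bx_mem_P i
    · exact C.bw_sub_one_mem_P i

theorem bw_add_one_notMem_P (i : Fin 3) : bw C.x C.w i + 1 ∉ C.P := by
  intro h
  have h1 := C.P.sub_mem h (C.bw_sub_one_mem_P i)
  have h2 : bw (O := O) C.x C.w i + 1 - (bw C.x C.w i - 1) = algebraMap O C.B 2 := by
    rw [map_ofNat]
    ring
  rw [h2] at h1
  exact (inferInstance : C.P.IsPrime).ne_top
    (Ideal.eq_top_of_isUnit_mem _ h1 (C.h2.map _))

/-- The local ring of `E ^ 3` over `O` at the point `(t, x, w - 1)`, inside `K`. -/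
noncomputable abbrev R : Subalgebra C.B K := locSub C.B K C.P

instance : IsLocalRing C.R := IsLocalization.AtPrime.isLocalRing C.R C.P

theorem isRegularRing_B : IsRegularRing C.B := by
  have := BB_smooth C.x C.w C.rel C.ind C.h2
  exact isRegularRing_of_smooth O C.B

instance : IsRegularRing C.R := by
  have := C.isRegularRing_B
  exact isRegularRing_of_isLocalization C.R C.P.primeCompl

instance : IsRegularLocalRing C.R := IsRegularLocalRing.of_isRegularRing_of_isLocalRing _

/-- The parameters `t, x_0, x_1, x_2`. -/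
noncomputable def par : Option (Fin 3) → C.R
  | none => algebraMap C.B C.R (algebraMap O C.B C.t)
  | some i => algebraMap C.B C.R (bx C.x C.w i)

theorem span_par : Ideal.span (Set.range C.par) = maximalIdeal C.R := by
  rw [← IsLocalization.AtPrime.map_eq_maximalIdeal C.P C.R, P_eq, Ideal.map_span]
  apply le_antisymm
  · rw [Ideal.span_le]
    rintro _ ⟨j, rfl⟩
    cases j with
    | none => exact Ideal.subset_span ⟨_, Or.inl rfl, rfl⟩
    | some i => exact Ideal.subset_span ⟨_, Or.inr (Or.inl ⟨i, rfl⟩), rfl⟩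
  · rw [Ideal.span_le]
    rintro _ ⟨_, (rfl | ⟨i, rfl⟩ | ⟨i, rfl⟩), rfl⟩
    · exact Ideal.subset_span ⟨none, rfl⟩
    · exact Ideal.subset_span ⟨some i, rfl⟩
    · have hu : IsUnit (algebraMap C.B C.R (bw C.x C.w i + 1)) :=
        IsLocalization.map_units C.R (⟨_, C.bw_add_one_notMem_P i⟩ : C.P.primeCompl)
      obtain ⟨v, hv⟩ := hu.exists_left_inv
      have h1 : algebraMap C.B C.R (bw C.x C.w i - 1) =
          v * algebraMap C.B C.R (bx C.x C.w i) ^ 3 * algebraMap C.B C.R (bx C.x C.w i) := by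
        have h2 : algebraMap C.B C.R (bw C.x C.w i + 1) * algebraMap C.B C.R (bw C.x C.w i - 1) =
            algebraMap C.B C.R (bx C.x C.w i) ^ 4 := by
          rw [← map_mul, ← map_pow]
          congr 1
          have := bw_sq (O := O) C.x C.w i (C.rel i)
          linear_combination this
        calc algebraMap C.B C.R (bw C.x C.w i - 1)
            = v * algebraMap C.B C.R (bw C.x C.w i + 1) * algebraMap C.B C.R (bw C.x C.w i - 1) := by
              rw [hv, one_mul]
          _ = _ := by rw [mul_assoc, h2]; ring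
      rw [SetLike.mem_coe, h1]
      exact Ideal.mul_mem_left _ _ (Ideal.subset_span ⟨some i, rfl⟩)

end Cub

end MP55c1e7.D0
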