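import Mathlib
import Pool.Agent.Lib.MP_55c1e7_ag.D0.Cub

namespace MP55c1e7.D0

open IsLocalRing MvPolynomial
open Pool.Agent.Lib.MP_55c1e7_ag.CH (rel QR SmoothData Ind chartEquiv adjoin_smooth)

universe u v

section Poly

variable (O : Type u) [CommRing O] [IsDomain O]

/-- Set the first `j` variables to zero. -/
noncomputable def kill (j : ℕ) : MvPolynomial (Fin 3) O →ₐ[O] MvPolynomial (Fin 3) O :=
  aeval (fun i => if i.val < j then 0 else X i)

omit [IsDomain O] in
theorem kill_kill (j : ℕ) (p : MvPolynomial (Fin 3) O) :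
    kill O (j + 1) (kill O j p) = kill O (j + 1) p := by
  have h : (kill O (j + 1)).comp (kill O j) = kill O (j + 1) := by
    apply MvPolynomial.algHom_ext
    intro i
    simp only [AlgHom.comp_apply, kill, aeval_X]
    by_cases h1 : i.val < j
    · have h2 : i.val < j + 1 := by omega
      simp [h1, h2]
    · simp [h1]
  exact DFunLike.congr_fun h p

theorem kill_lt (j : ℕ) (hj : j < 3) :
    RingHom.ker (kill O j) < RingHom.ker (kill O (j + 1)) := by
  refine lt_of_le_of_ne ?_ ?_
  · intro p hp
    rw [RingHom.mem_ker] at hp ⊢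
    rw [← kill_kill, hp, map_zero]
  · intro h
    have h1 : (X ⟨j, hj⟩ : MvPolynomial (Fin 3) O) ∈ RingHom.ker (kill O (j + 1)) := by
      rw [RingHom.mem_ker]
      simp [kill]
    rw [← h, RingHom.mem_ker] at h1
    simp [kill] at h1

theorem height_ker_kill (j : ℕ) (hj : j ≤ 3) : (j : ℕ∞) ≤ (RingHom.ker (kill O j)).height := by
  induction j with
  | zero => exact bot_le
  | succ j ih =>
    have h1 : (RingHom.ker (kill O j)).IsPrime := RingHom.ker_isPrime _
    have h1' : (RingHom.ker (kill O (j + 1))).IsPrime := RingHom.ker_isPrime _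
    have h2 := Ideal.height_add_one_le_of_lt_of_isPrime (kill_lt O j (by omega))
    refine le_trans ?_ h2
    push_cast
    gcongr
    exact ih (by omega)

/-- The evaluation at the closed point. -/
noncomputable def evk (t : O) : MvPolynomial (Fin 3) O →ₐ[O] (O ⧸ Ideal.span {t}) :=
  aeval (fun _ => 0)

theorem height_evk (t : O) (ht : Prime t) : 4 ≤ (RingHom.ker (evk O t)).height := by
  have h1 : (RingHom.ker (kill O 3)).IsPrime := RingHom.ker_isPrime _
  have hq : (Ideal.span {t}).IsPrime := (Ideal.span_singleton_prime ht.ne_zero).mpr ht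
  have h1' : (RingHom.ker (evk O t)).IsPrime := RingHom.ker_isPrime _
  have hlt : RingHom.ker (kill O 3) < RingHom.ker (evk O t) := by
    refine lt_of_le_of_ne ?_ ?_
    · intro p hp
      rw [RingHom.mem_ker] at hp ⊢
      have h : (evk O t).comp (kill O 3) = evk O t := by
        apply MvPolynomial.algHom_ext
        intro i
        simp only [AlgHom.comp_apply, kill, aeval_X, evk]
        by_cases h1 : i.val < 3
        · simp [h1]
        · simp [h1]
      rw [← h, AlgHom.comp_apply, hp, map_zero]
    · intro h
      have h2 : (C t : MvPolynomial (Fin 3) O) ∈ RingHom.ker (evk O t) := by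
        rw [RingHom.mem_ker, ← MvPolynomial.algebraMap_eq, AlgHom.commutes]
        exact Ideal.Quotient.eq_zero_iff_mem.mpr (Ideal.mem_span_singleton_self _)
      rw [← h, RingHom.mem_ker, ← MvPolynomial.algebraMap_eq, AlgHom.commutes,
        MvPolynomial.algebraMap_eq] at h2
      exact ht.ne_zero (C_injective _ _ (h2.trans (map_zero _).symm))
  have h3 := Ideal.height_add_one_le_of_lt_of_isPrime hlt
  refine le_trans ?_ h3
  have h4 := height_ker_kill O 3 le_rfl
  calc (4 : ℕ∞) = ((3 : ℕ) : ℕ∞) + 1 := by norm_num
    _ ≤ _ := by gcongr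

end Poly

namespace Cub

variable {O : Type u} {K : Type v} [CommRing O] [IsDomain O] [IsDiscreteValuationRing O]
  [Field K] [Algebra O K] (C : Cub O K)

/-- `O[X_0,X_1,X_2] → B`. -/
noncomputable def pol : MvPolynomial (Fin 3) O →ₐ[O] C.B := aeval (bx C.x C.w)

theorem pol_coe (p : MvPolynomial (Fin 3) O) : (C.pol p : K) = aeval C.x p := by
  have h : (C.B.val).comp C.pol = aeval C.x := by
    apply MvPolynomial.algHom_ext
    intro i
    simp only [AlgHom.comp_apply, pol, aeval_X]
    rfl
  exact DFunLike.congr_fun h p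

theorem pol_injective : Function.Injective C.pol := by
  rw [injective_iff_map_eq_zero]
  intro p hp
  classical
  have h := C.ind (fun ε => if ε = ∅ then p else 0) (by
    rw [Finset.sum_eq_single (∅ : Finset (Fin 3))]
    · rw [if_pos rfl, ← pol_coe, hp]
      simp
    · intro b _ hb
      simp [hb]
    · intro h
      exact absurd (Finset.mem_univ _) h)
  have h2 := congrFun h ∅
  simpa using h2

theorem pol_isIntegral : C.pol.toRingHom.IsIntegral := by
  intro b
  obtain ⟨b, hb⟩ := b
  induction hb using Algebra.adjoin_induction with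
  | mem y hy =>
    obtain ⟨i, rfl⟩ := hy
    cases i with
    | inl i =>
      have h1 : (⟨Sum.elim C.x C.w (Sum.inl i), Algebra.subset_adjoin ⟨_, rfl⟩⟩ : C.B) =
          C.pol.toRingHom (X i) := by
        show _ = C.pol (X i)
        rw [pol, aeval_X]
        rfl
      rw [h1]
      exact RingHom.isIntegralElem_map _
    | inr i =>
      refine ⟨Polynomial.X ^ 2 - Polynomial.C (X i ^ 4 + 1),
        Polynomial.monic_X_pow_sub_C _ two_ne_zero, ?_⟩
      rw [Polynomial.eval₂_sub, Polynomial.eval₂_X_pow, Polynomial.eval₂_C]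
      have h1 : C.pol.toRingHom (X i ^ 4 + 1) = bx C.x C.w i ^ 4 + 1 := by
        show C.pol (X i ^ 4 + 1) = _
        rw [map_add, map_pow, map_one, pol, aeval_X]
      rw [h1, ← bw_sq C.x C.w i (C.rel i)]
      exact sub_self _
  | algebraMap r =>
    have h1 : (⟨algebraMap O K r, Subalgebra.algebraMap_mem _ r⟩ : C.B) =
        C.pol.toRingHom (algebraMap O _ r) := (C.pol.commutes r).symm
    rw [h1]
    exact RingHom.isIntegralElem_map _
  | add y z hy hz h1 h2 => exact h1.add _ h2
  | mul y z hy hz h1 h2 => exact h1.mul _ h2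

theorem four_le_height : 4 ≤ C.P.height := by
  let := C.pol.toRingHom.toAlgebra
  have h1 : Algebra.IsIntegral (MvPolynomial (Fin 3) O) C.B := ⟨C.pol_isIntegral⟩
  have h2 : FaithfulSMul (MvPolynomial (Fin 3) O) C.B :=
    (faithfulSMul_iff_algebraMap_injective _ _).mpr C.pol_injective
  have h3 : IsIntegrallyClosed (MvPolynomial (Fin 3) O) := inferInstance
  have hn : IsNoetherianRing C.B := by
    have := C.isRegularRing_B
    infer_instance
  have h5 : (RingHom.ker (evk O C.t)).IsPrime := by
    have := C.t_isMaximal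
    let := Ideal.Quotient.field (Ideal.span {C.t})
    exact RingHom.ker_isPrime _
  have h6 : C.P.LiesOver (RingHom.ker (evk O C.t)) := by
    constructor
    ext p
    rw [Ideal.mem_comap, mem_P, RingHom.mem_ker]
    have h : C.sec.comp C.pol = evk O C.t := by
      apply MvPolynomial.algHom_ext
      intro i
      simp only [AlgHom.comp_apply, pol, aeval_X, evk]
      exact rho_bx _ _ _ _ _ i
    rw [← h]
    rfl
  rw [Ideal.height_eq_height_add_of_liesOver_of_hasGoingDown (RingHom.ker (evk O C.t)) C.P]
  exact (height_evk O C.t C.ht.prime).trans le_self_add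

theorem ringKrullDim_R : ringKrullDim C.R = 4 := by
  apply le_antisymm
  · have h1 := ringKrullDim_le_spanFinrank_maximalIdeal C.R
    refine h1.trans ?_
    have h2 : (maximalIdeal C.R).spanFinrank ≤ 4 := by
      rw [← span_par]
      have h3 := Submodule.spanFinrank_span_le_ncard_of_finite (R := C.R)
        (s := Set.range C.par) (Set.finite_range _)
      refine h3.trans ?_
      rw [← Set.image_univ]
      refine (Set.ncard_image_le Set.finite_univ).trans ?_
      rw [Set.ncard_univ]
      simp
    exact_mod_cast h2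
  · rw [IsLocalization.AtPrime.ringKrullDim_eq_height C.P C.R]
    exact WithBot.coe_le_coe.mpr C.four_le_height

end Cub

end MP55c1e7.D0
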