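import Mathlib
import Pool.Agent.Lib.MP_55c1e7_ag.D0.CubDim
import Pool.Agent.Lib.MP_55c1e7_ag.Reg3

namespace MP55c1e7.D0

open IsLocalRing MvPolynomial
open Pool.Agent.Lib.MP_55c1e7_ag.CH (rel QR SmoothData Ind chartEquiv adjoin_smooth)

universe u v

namespace Cub

variable {O : Type u} {K : Type v} [CommRing O] [IsDomain O] [IsDiscreteValuationRing O]
  [Field K] [Algebra O K] (C : Cub O K)

instance : UniqueFactorizationMonoid C.R := (MP55c1e7.Reg.ufd C.R).2

include C in
theorem algebraMap_injective : Function.Injective (algebraMap O K) := by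
  rw [injective_iff_map_eq_zero]
  intro a ha
  classical
  have h := C.ind (fun ε => if ε = ∅ then MvPolynomial.C a else 0) (by
    rw [Finset.sum_eq_single (∅ : Finset (Fin 3))]
    · rw [if_pos rfl, ← MvPolynomial.algebraMap_eq, AlgHom.commutes, ha, zero_mul]
    · intro b _ hb
      simp [hb]
    · intro h
      exact absurd (Finset.mem_univ _) h)
  have h2 := congrFun h ∅
  simpa using h2

/-- The parameters `t, x_0, x_1, x_2`: the ideals generated by subsets are prime, with regular
quotient. -/
theorem par_prime (s : Set (Option (Fin 3))) :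
    (Ideal.span (C.par '' s)).IsPrime ∧ IsRegularLocalRing (C.R ⧸ Ideal.span (C.par '' s)) :=
  span_params_isPrime C.par C.span_par (by rw [C.ringKrullDim_R]; simp) s

theorem prime_par (i : Option (Fin 3)) : Prime (C.par i) :=
  prime_param C.par C.span_par (by rw [C.ringKrullDim_R]; simp) i

/-- The parameters `x_0 - t, x_0, x_1, x_2`. -/
noncomputable def par' : Option (Fin 3) → C.R
  | none => C.par (some 0) - C.par none
  | some i => C.par (some i)

theorem span_par' : Ideal.span (Set.range C.par') = maximalIdeal C.R := by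
  rw [← span_par]
  apply le_antisymm
  · rw [Ideal.span_le]
    rintro _ ⟨j, rfl⟩
    cases j with
    | none => exact Ideal.sub_mem _ (Ideal.subset_span ⟨_, rfl⟩) (Ideal.subset_span ⟨_, rfl⟩)
    | some i => exact Ideal.subset_span ⟨some i, rfl⟩
  · rw [Ideal.span_le]
    rintro _ ⟨j, rfl⟩
    cases j with
    | none =>
      have h1 : C.par none = C.par' (some 0) - C.par' none := by
        simp only [par']
        ring
      rw [SetLike.mem_coe, h1]
      exact Ideal.sub_mem _ (Ideal.subset_span ⟨_, rfl⟩) (Ideal.subset_span ⟨_, rfl⟩)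
    | some i => exact Ideal.subset_span ⟨some i, rfl⟩

theorem par'_prime (s : Set (Option (Fin 3))) :
    (Ideal.span (C.par' '' s)).IsPrime ∧ IsRegularLocalRing (C.R ⧸ Ideal.span (C.par' '' s)) :=
  span_params_isPrime C.par' C.span_par' (by rw [C.ringKrullDim_R]; simp) s

theorem prime_par' (i : Option (Fin 3)) : Prime (C.par' i) :=
  prime_param C.par' C.span_par' (by rw [C.ringKrullDim_R]; simp) i

/-- If `K` is generated by the coordinates, it is the fraction field of `B`. -/
theorem isFractionRing_B (k : Type*) [Field k] [Algebra O k] [IsFractionRing O k] [Algebra k K]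
    [IsScalarTower O k K]
    (hgen : IntermediateField.adjoin k (Set.range C.x ∪ Set.range C.w) = ⊤) :
    IsFractionRing C.B K := by
  have key : ∀ z ∈ IntermediateField.adjoin k (Set.range C.x ∪ Set.range C.w),
      ∃ a s : C.B, s ≠ 0 ∧ z = a / s := by
    intro z hz
    induction hz using IntermediateField.adjoin_induction with
    | mem y hy =>
      rcases hy with ⟨i, rfl⟩ | ⟨i, rfl⟩
      · exact ⟨bx C.x C.w i, 1, one_ne_zero, by rw [OneMemClass.coe_one, div_one]; rfl⟩
      · exact ⟨bw C.x C.w i, 1, one_ne_zero, by rw [OneMemClass.coe_one, div_one]; rfl⟩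
    | algebraMap c =>
      obtain ⟨a, b, hb, rfl⟩ := IsFractionRing.div_surjective O c
      have hb0 : b ≠ 0 := nonZeroDivisors.ne_zero hb
      refine ⟨algebraMap O C.B a, algebraMap O C.B b, ?_, ?_⟩
      · intro h
        have h1 : algebraMap O K b = 0 := congrArg Subtype.val h
        exact hb0 (C.algebraMap_injective (h1.trans (map_zero _).symm))
      · rw [map_div₀, ← IsScalarTower.algebraMap_apply, ← IsScalarTower.algebraMap_apply]
        rfl
    | add y z hy hz h1 h2 =>
      obtain ⟨a, s, hs, rfl⟩ := h1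
      obtain ⟨a', s', hs', rfl⟩ := h2
      refine ⟨a * s' + s * a', s * s', mul_ne_zero hs hs', ?_⟩
      have e1 : (s : K) ≠ 0 := fun h => hs (Subtype.ext h)
      have e2 : (s' : K) ≠ 0 := fun h => hs' (Subtype.ext h)
      rw [div_add_div _ _ e1 e2]
      rfl
    | inv y hy h1 =>
      obtain ⟨a, s, hs, rfl⟩ := h1
      by_cases ha : a = 0
      · subst ha
        refine ⟨0, 1, one_ne_zero, ?_⟩
        simp
      · exact ⟨s, a, ha, by rw [inv_div]⟩
    | mul y z hy hz h1 h2 =>
      obtain ⟨a, s, hs, rfl⟩ := h1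
      obtain ⟨a', s', hs', rfl⟩ := h2
      refine ⟨a * a', s * s', mul_ne_zero hs hs', ?_⟩
      rw [div_mul_div_comm]
      rfl
  refine IsFractionRing.of_field _ _ fun z => ?_
  obtain ⟨a, s, -, h⟩ := key z (by rw [hgen]; trivial)
  exact ⟨a, s, h⟩

/-- Membership in `R`. -/
theorem mem_R {a : K} : a ∈ C.R ↔ ∃ b s : C.B, C.sec s ≠ 0 ∧ a = b / s := Iff.rfl

theorem B_le_R (b : C.B) : (b : K) ∈ C.R := Subalgebra.algebraMap_mem C.R b

theorem x_mem_R (i : Fin 3) : C.x i ∈ C.R := C.B_le_R (bx C.x C.w i)

theorem w_mem_R (i : Fin 3) : C.w i ∈ C.R := C.B_le_R (bw C.x C.w i)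

theorem O_mem_R (o : O) : algebraMap O K o ∈ C.R := C.B_le_R (algebraMap O C.B o)

theorem coe_par_none : ((C.par none : C.R) : K) = algebraMap O K C.t := rfl

theorem coe_par_some (i : Fin 3) : ((C.par (some i) : C.R) : K) = C.x i := rfl

/-- `w_i - 1` lies in the maximal ideal. -/
theorem w_sub_one_mem (i : Fin 3) :
    (⟨C.w i, C.w_mem_R i⟩ - 1 : C.R) ∈ maximalIdeal C.R := by
  rw [← IsLocalization.AtPrime.map_eq_maximalIdeal C.P C.R]
  exact Ideal.mem_map_of_mem _ (C.bw_sub_one_mem_P i)

/-- An element of `B` is a unit of `R` iff its value at the point is not zero. -/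
theorem isUnit_iff_sec {b : C.B} : IsUnit (algebraMap C.B C.R b) ↔ C.sec b ≠ 0 := by
  rw [IsLocalization.AtPrime.isUnit_to_map_iff C.R C.P]
  rfl

end Cub

end MP55c1e7.D0
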