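import Mathlib
import Pool.Agent.Lib.MP_55c1e7_ag.Reg3
import Pool.Agent.Lib.MP_55c1e7_ag.D0.RegD

universe u
open IsLocalRing

namespace MP55c1e7

/-- relatively prime elements stay relatively prime in a flat extension -/
theorem relPrime_of_flat {A A' : Type u} [CommRing A] [IsDomain A] [UniqueFactorizationMonoid A]
    [CommRing A'] [IsDomain A'] [Algebra A A'] [Module.FaithfullyFlat A A'] {u v : A} (hu : u ≠ 0)
    (h : IsRelPrime u v) : IsRelPrime (algebraMap A A' u) (algebraMap A A' v) := by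
  have hinj : Function.Injective (algebraMap A A') := FaithfulSMul.algebraMap_injective A A'
  have hu' : algebraMap A A' u ≠ 0 := fun h0 => hu (hinj (by rw [h0, map_zero]))
  -- the regularity of `v` modulo `u`
  have hreg : ∀ x y : A', algebraMap A A' u * y = algebraMap A A' v * x →
      algebraMap A A' u ∣ x := by
    intro x y hxy
    have h1 : ∑ i : Fin 2, (![u, -v] i) • (![y, x] i : A') = 0 := by
      rw [Fin.sum_univ_two]
      simp only [Matrix.cons_val_zero, Matrix.cons_val_one]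
      rw [Algebra.smul_def, Algebra.smul_def, map_neg, hxy]
      ring
    obtain ⟨k, a, z, hz, ha⟩ := Module.Flat.isTrivialRelation_of_sum_smul_eq_zero (R := A)
      (M := A') (f := ![u, -v]) (x := ![y, x]) h1
    have hx : x = ∑ j, a 1 j • z j := by simpa using hz 1
    rw [hx]
    apply Finset.dvd_sum
    intro j _
    have h2 := ha j
    rw [Fin.sum_univ_two] at h2
    simp only [Matrix.cons_val_zero, Matrix.cons_val_one] at h2
    have h3 : u ∣ v * a 1 j := ⟨a 0 j, by linear_combination -h2⟩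
    obtain ⟨e, he⟩ := h.dvd_of_dvd_mul_left h3
    rw [he, Algebra.smul_def, map_mul, mul_assoc]
    exact dvd_mul_right _ _
  intro d hd1 hd2
  obtain ⟨a, ha⟩ := hd1
  obtain ⟨b, hb⟩ := hd2
  have ha0 : a ≠ 0 := by
    rintro rfl
    exact hu' (by rw [ha, mul_zero])
  obtain ⟨e, he⟩ := hreg a b (by rw [ha, hb]; ring)
  have h1 : a * (d * e) = a * 1 := by
    rw [mul_one]
    nth_rewrite 2 [he]
    rw [ha]; ring
  exact IsUnit.of_mul_eq_one _ (mul_left_cancel₀ ha0 h1)

theorem mem_pow_of_flat {A A' : Type u} [CommRing A] [IsLocalRing A] [CommRing A'] [IsLocalRing A']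
    [Algebra A A'] [Module.FaithfullyFlat A A']
    (hm : (maximalIdeal A).map (algebraMap A A') = maximalIdeal A') {x : A} {k : ℕ}
    (h : algebraMap A A' x ∈ maximalIdeal A' ^ k) : x ∈ maximalIdeal A ^ k := by
  rw [← hm, ← Ideal.map_pow] at h
  have := Ideal.comap_map_eq_self_of_faithfullyFlat (B := A') (maximalIdeal A ^ k)
  rw [← this]
  exact h

/-- in a factorial domain a factor of a square which is prime to the cofactor is a unit times
a square -/
theorem exists_sq {A : Type u} [CommRing A] [IsDomain A] [UniqueFactorizationMonoid A]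
    {a b e s : A} (hrp : IsRelPrime a b) (he : IsUnit e) (h : a * b = e * s ^ 2) :
    ∃ η d : A, IsUnit η ∧ a = η * d ^ 2 := by
  classical
  letI : GCDMonoid A := UniqueFactorizationMonoid.toGCDMonoid A
  obtain ⟨f, hf⟩ := he.exists_left_inv
  have hfu : IsUnit f := IsUnit.of_mul_eq_one _ hf
  have h1 : a * (b * f) = s ^ 2 := by
    rw [← mul_assoc, h]
    linear_combination (s ^ 2) * hf
  have hrp2 : IsRelPrime a (b * f) := by
    intro d hd1 hd2
    exact hrp hd1 ((hfu.dvd_mul_right).1 hd2)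
  obtain ⟨d, hd⟩ := exists_associated_pow_of_mul_eq_pow (gcd_isUnit_iff_isRelPrime.2 hrp2) h1
  obtain ⟨w, hw⟩ := hd
  exact ⟨w, d, w.isUnit, by rw [← hw]; ring⟩

theorem descent (n : ℕ) : ∀ (A : Type u) [CommRing A] [IsLocalRing A] [IsRegularRing A]
    (_ : IsUnit (2 : A)) (al be : Fin 4 → A)
    (_ : ∀ i j, i ≠ j → IsUnit (al i * be j - al j * be i)) (u v : A)
    (_ : u ∈ maximalIdeal A) (_ : v ∈ maximalIdeal A) (_ : IsRelPrime u v) (e s : A)
    (_ : IsUnit e) (_ : ∏ i, (al i * u + be i * v) = e * s ^ 2),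
    u ∈ maximalIdeal A ^ (2 ^ n) ∧ v ∈ maximalIdeal A ^ (2 ^ n) := by
  classical
  induction n with
  | zero =>
    intro A _ _ _ _ al be _ u v hu hv _ e s _ _
    simpa using ⟨hu, hv⟩
  | succ n ih =>
    intro A _ _ _ h2 al be hD u v hu hv hrp e s he hprod
    obtain ⟨hdom, hufd⟩ := Reg.ufd A
    set l : Fin 4 → A := fun i => al i * u + be i * v with hl
    have hlm : ∀ i, l i ∈ maximalIdeal A := fun i =>
      Ideal.add_mem _ (Ideal.mul_mem_left _ _ hu) (Ideal.mul_mem_left _ _ hv)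
    have hrel : ∀ i j, i ≠ j → IsRelPrime (l i) (l j) := by
      intro i j hij d hd1 hd2
      have e1 : (al i * be j - al j * be i) * u = be j * l i - be i * l j := by
        simp only [hl]; ring
      have e2 : (al i * be j - al j * be i) * v = al i * l j - al j * l i := by
        simp only [hl]; ring
      have f1 : d ∣ u := by
        rw [← (hD i j hij).dvd_mul_left, e1]
        exact dvd_sub (Dvd.dvd.mul_left hd1 _) (Dvd.dvd.mul_left hd2 _)
      have f2 : d ∣ v := by
        rw [← (hD i j hij).dvd_mul_left, e2]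
        exact dvd_sub (Dvd.dvd.mul_left hd2 _) (Dvd.dvd.mul_left hd1 _)
      exact hrp f1 f2
    have hsq : ∀ i, ∃ η d : A, IsUnit η ∧ l i = η * d ^ 2 := by
      intro i
      apply exists_sq (b := ∏ j ∈ Finset.univ.erase i, l j) (e := e) (s := s) _ he
      · rw [Finset.mul_prod_erase _ _ (Finset.mem_univ i)]
        exact hprod
      · apply IsRelPrime.prod_right
        intro j hj
        exact hrel i j (Finset.ne_of_mem_erase hj).symm
    choose η σ hη hσ using hsq
    have hσm : ∀ i, σ i ∈ maximalIdeal A := by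
      intro i
      have h1 := hlm i
      rw [hσ i] at h1
      exact (maximalIdeal.isMaximal A).isPrime.mem_of_pow_mem 2
        ((Ideal.unit_mul_mem_iff_mem _ (hη i)).1 h1)
    have hrp0 : IsRelPrime (σ 0) (σ 1) := by
      intro d hd1 hd2
      apply hrel 0 1 (by decide)
      · rw [hσ 0]; exact Dvd.dvd.mul_left (Dvd.dvd.pow hd1 two_ne_zero) _
      · rw [hσ 1]; exact Dvd.dvd.mul_left (Dvd.dvd.pow hd2 two_ne_zero) _
    have hσ0 : σ 0 ≠ 0 := by
      intro h0
      rw [h0] at hrp0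
      have h1 : IsUnit (σ 1) := hrp0 (dvd_zero _) dvd_rfl
      exact (maximalIdeal.isMaximal A).ne_top (Ideal.eq_top_of_isUnit_mem _ (hσm 1) h1)
    -- the two quadratic relations
    obtain ⟨c, hc⟩ := ((hD 2 1 (by decide)).mul (hη 0)).exists_left_inv
    obtain ⟨c', hc'⟩ := ((hD 3 1 (by decide)).mul (hη 0)).exists_left_inv
    have hcu : IsUnit c := IsUnit.of_mul_eq_one _ hc
    have hcu' : IsUnit c' := IsUnit.of_mul_eq_one _ hc'
    set γ : A := c * ((al 0 * be 2 - al 2 * be 0) * η 1) with hγ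
    set γ' : A := c' * ((al 0 * be 3 - al 3 * be 0) * η 1) with hγ'
    have hγu : IsUnit γ := hcu.mul ((hD 0 2 (by decide)).mul (hη 1))
    have hγu' : IsUnit γ' := hcu'.mul ((hD 0 3 (by decide)).mul (hη 1))
    have hdiff : IsUnit (γ' - γ) := by
      have h1 : γ' - γ = c * c' * (η 0 * η 1) *
          ((al 0 * be 1 - al 1 * be 0) * (al 2 * be 3 - al 3 * be 2)) := by
        rw [hγ, hγ']
        linear_combination (-(c' * ((al 0 * be 3 - al 3 * be 0) * η 1))) * hc +
          (c * ((al 0 * be 2 - al 2 * be 0) * η 1)) * hc'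
      rw [h1]
      exact ((hcu.mul hcu').mul ((hη 0).mul (hη 1))).mul
        ((hD 0 1 (by decide)).mul (hD 2 3 (by decide)))
    have hσ' : ∀ i, al i * u + be i * v = η i * σ i ^ 2 := hσ
    have E1 : σ 0 ^ 2 + γ * σ 1 ^ 2 =
        (c * (al 0 * be 1 - al 1 * be 0) * η 2) * σ 2 ^ 2 := by
      rw [hγ]
      linear_combination (-(σ 0) ^ 2) * hc - (c * (al 2 * be 1 - al 1 * be 2)) * hσ' 0 -
        (c * (al 0 * be 2 - al 2 * be 0)) * hσ' 1 + (c * (al 0 * be 1 - al 1 * be 0)) * hσ' 2
    have E2 : σ 0 ^ 2 + γ' * σ 1 ^ 2 =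
        (c' * (al 0 * be 1 - al 1 * be 0) * η 3) * σ 3 ^ 2 := by
      rw [hγ']
      linear_combination (-(σ 0) ^ 2) * hc' - (c' * (al 3 * be 1 - al 1 * be 3)) * hσ' 0 -
        (c' * (al 0 * be 3 - al 3 * be 0)) * hσ' 1 + (c' * (al 0 * be 1 - al 1 * be 0)) * hσ' 3
    obtain ⟨A1, _, _, _, hr1, hl1, hf1, hff1, hm1, g, hg, hgu⟩ :=
      D0.exists_sqrt A h2 (-γ) hγu.neg
    have h21 : IsUnit (2 : A1) := by
      have := h2.map (algebraMap A A1)
      rwa [map_ofNat] at this
    obtain ⟨A2, _, _, _, hr2, hl2, hf2, hff2, hm2, k, hk, hku⟩ :=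
      D0.exists_sqrt A1 h21 (algebraMap A A1 (-γ')) (hγu'.neg.map _)
    obtain ⟨hdom1, hufd1⟩ := Reg.ufd A1
    obtain ⟨hdom2, hufd2⟩ := Reg.ufd A2
    have h22 : IsUnit (2 : A2) := by
      have := h21.map (algebraMap A1 A2)
      rwa [map_ofNat] at this
    let φ : A →+* A2 := (algebraMap A1 A2).comp (algebraMap A A1)
    let G : A2 := algebraMap A1 A2 g
    have hG : G ^ 2 = φ (-γ) := by
      simp only [G, φ, RingHom.comp_apply, ← hg, map_pow]
    have hK : k ^ 2 = φ (-γ') := by
      rw [hk]; rfl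
    have hGu : IsUnit G := hgu.map _
    -- the new forms
    have hprod2 : ∏ i, ((![1, 1, 1, 1] : Fin 4 → A2) i * φ (σ 0) +
        (![-G, G, -k, k] : Fin 4 → A2) i * φ (σ 1)) =
        φ ((c * (al 0 * be 1 - al 1 * be 0) * η 2) * (c' * (al 0 * be 1 - al 1 * be 0) * η 3)) *
          φ (σ 2 * σ 3) ^ 2 := by
      have F1 := congrArg φ E1
      have F2 := congrArg φ E2
      simp only [map_add, map_mul, map_pow, map_neg] at F1 F2 hG hK
      rw [Fin.prod_univ_four]
      simp only [Matrix.cons_val_zero, Matrix.cons_val_one, Matrix.cons_val]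
      simp only [map_mul]
      have e1 : (1 * φ (σ 0) + -G * φ (σ 1)) * (1 * φ (σ 0) + G * φ (σ 1)) *
          (1 * φ (σ 0) + -k * φ (σ 1)) * (1 * φ (σ 0) + k * φ (σ 1)) =
          (φ (σ 0) ^ 2 + φ γ * φ (σ 1) ^ 2) * (φ (σ 0) ^ 2 + φ γ' * φ (σ 1) ^ 2) := by
        have e2 : (1 * φ (σ 0) + -G * φ (σ 1)) * (1 * φ (σ 0) + G * φ (σ 1)) =
            φ (σ 0) ^ 2 + φ γ * φ (σ 1) ^ 2 := by
          linear_combination (-(φ (σ 1)) ^ 2) * hG
        have e3 : (1 * φ (σ 0) + -k * φ (σ 1)) * (1 * φ (σ 0) + k * φ (σ 1)) =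
            φ (σ 0) ^ 2 + φ γ' * φ (σ 1) ^ 2 := by
          linear_combination (-(φ (σ 1)) ^ 2) * hK
        rw [mul_assoc, e2, e3]
      rw [e1, F1, F2]
      ring
    have hD2 : ∀ i j : Fin 4, i ≠ j → IsUnit ((![1, 1, 1, 1] : Fin 4 → A2) i *
        (![-G, G, -k, k] : Fin 4 → A2) j - (![1, 1, 1, 1] : Fin 4 → A2) j *
        (![-G, G, -k, k] : Fin 4 → A2) i) := by
      have u12 : IsUnit ((G - k) * (G + k)) := by
        have : (G - k) * (G + k) = φ (γ' - γ) := by
          rw [map_neg] at hG hK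
          rw [map_sub]
          linear_combination hG - hK
        rw [this]
        exact hdiff.map φ
      have u1 : IsUnit (G - k) := isUnit_of_mul_isUnit_left u12
      have u2 : IsUnit (G + k) := isUnit_of_mul_isUnit_right u12
      have u3 : IsUnit (2 * G) := h22.mul hGu
      have u4 : IsUnit (2 * k) := h22.mul hku
      intro i j hij
      fin_cases i <;> fin_cases j <;> simp only [Matrix.cons_val_zero, Matrix.cons_val_one,
        Matrix.cons_val, Fin.zero_eta, Fin.mk_one, Fin.reduceFinMk, one_mul] <;> first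
        | exact absurd rfl hij
        | (convert u1 using 1 <;> ring1)
        | (convert u2 using 1 <;> ring1)
        | (convert u3 using 1 <;> ring1)
        | (convert u4 using 1 <;> ring1)
        | (convert u1.neg using 1 <;> ring1)
        | (convert u2.neg using 1 <;> ring1)
        | (convert u3.neg using 1 <;> ring1)
        | (convert u4.neg using 1 <;> ring1)
    have hinj1 : Function.Injective (algebraMap A A1) := FaithfulSMul.algebraMap_injective A A1
    have hrp1 : IsRelPrime (algebraMap A A1 (σ 0)) (algebraMap A A1 (σ 1)) :=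
      relPrime_of_flat hσ0 hrp0
    have hrp2 : IsRelPrime (φ (σ 0)) (φ (σ 1)) :=
      relPrime_of_flat (fun h0 => hσ0 (hinj1 (by rw [h0, map_zero]))) hrp1
    have hφm : ∀ x ∈ maximalIdeal A, φ x ∈ maximalIdeal A2 := by
      intro x hx
      rw [← hm2, ← hm1]
      exact Ideal.mem_map_of_mem _ (Ideal.mem_map_of_mem _ hx)
    have hpull : ∀ x : A, φ x ∈ maximalIdeal A2 ^ (2 ^ n) → x ∈ maximalIdeal A ^ (2 ^ n) :=
      fun x hx => mem_pow_of_flat hm1 (mem_pow_of_flat hm2 hx)
    obtain ⟨i1, i2⟩ := ih A2 h22 _ _ hD2 (φ (σ 0)) (φ (σ 1)) (hφm _ (hσm 0)) (hφm _ (hσm 1)) hrp2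
      _ _ ((((hcu.mul (hD 0 1 (by decide))).mul (hη 2)).mul
        ((hcu'.mul (hD 0 1 (by decide))).mul (hη 3))).map φ) hprod2
    have j1 := hpull _ i1
    have j2 := hpull _ i2
    have hpow : ∀ x ∈ maximalIdeal A ^ (2 ^ n), x ^ 2 ∈ maximalIdeal A ^ (2 ^ (n + 1)) := by
      intro x hx
      rw [pow_succ 2 n, pow_mul]
      exact Ideal.pow_mem_pow hx 2
    have k0 : l 0 ∈ maximalIdeal A ^ (2 ^ (n + 1)) := by
      rw [hσ 0]; exact Ideal.mul_mem_left _ _ (hpow _ j1)
    have k1 : l 1 ∈ maximalIdeal A ^ (2 ^ (n + 1)) := by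
      rw [hσ 1]; exact Ideal.mul_mem_left _ _ (hpow _ j2)
    constructor
    · rw [← Ideal.unit_mul_mem_iff_mem _ (hD 0 1 (by decide))]
      have e1 : (al 0 * be 1 - al 1 * be 0) * u = be 1 * l 0 - be 0 * l 1 := by
        simp only [hl]; ring
      rw [e1]
      exact Ideal.sub_mem _ (Ideal.mul_mem_left _ _ k0) (Ideal.mul_mem_left _ _ k1)
    · rw [← Ideal.unit_mul_mem_iff_mem _ (hD 0 1 (by decide))]
      have e1 : (al 0 * be 1 - al 1 * be 0) * v = al 0 * l 1 - al 1 * l 0 := by
        simp only [hl]; ring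
      rw [e1]
      exact Ideal.sub_mem _ (Ideal.mul_mem_left _ _ k1) (Ideal.mul_mem_left _ _ k0)

/-- no relatively prime elements of the maximal ideal whose four linear forms multiply to a
square -/
theorem no_solution (A : Type u) [CommRing A] [IsLocalRing A] [IsRegularRing A]
    (h2 : IsUnit (2 : A)) (al be : Fin 4 → A)
    (hD : ∀ i j, i ≠ j → IsUnit (al i * be j - al j * be i)) (u v : A)
    (hu : u ∈ maximalIdeal A) (hv : v ∈ maximalIdeal A) (hrp : IsRelPrime u v) (e s : A)
    (he : IsUnit e) (h : ∏ i, (al i * u + be i * v) = e * s ^ 2) : False := by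
  have h1 : ∀ w : A, (∀ n : ℕ, w ∈ maximalIdeal A ^ (2 ^ n)) → w = 0 := by
    intro w hw
    have h2 : w ∈ ⨅ i : ℕ, maximalIdeal A ^ i := by
      rw [Ideal.mem_iInf]
      intro i
      exact Ideal.pow_le_pow_right (Nat.lt_two_pow_self).le (hw i)
    rw [Ideal.iInf_pow_eq_bot_of_isLocalRing _ (maximalIdeal.isMaximal A).ne_top] at h2
    exact h2
  have hu0 : u = 0 := h1 u fun n => (descent n A h2 al be hD u v hu hv hrp e s he h).1
  have hv0 : v = 0 := h1 v fun n => (descent n A h2 al be hD u v hu hv hrp e s he h).2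
  rw [hu0, hv0] at hrp
  have h3 : IsUnit (0 : A) := hrp dvd_rfl dvd_rfl
  exact not_isUnit_zero h3

/-- the same for the quartic `u ^ 4 + v ^ 4` -/
theorem no_fermat (A : Type u) [CommRing A] [IsLocalRing A] [IsRegularRing A]
    (h2 : IsUnit (2 : A)) (u v s : A)
    (hu : u ∈ maximalIdeal A) (hv : v ∈ maximalIdeal A) (hrp : IsRelPrime u v)
    (h : s ^ 2 = u ^ 4 + v ^ 4) : False := by
  obtain ⟨hdom, hufd⟩ := Reg.ufd A
  have hu0 : u ≠ 0 := by
    intro h0
    rw [h0] at hrp
    have h1 : IsUnit v := hrp (dvd_zero _) dvd_rfl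
    exact (maximalIdeal.isMaximal A).ne_top (Ideal.eq_top_of_isUnit_mem _ hv h1)
  obtain ⟨A1, _, _, _, hr1, hl1, hf1, hff1, hm1, g, hg, hgu⟩ :=
    D0.exists_sqrt A h2 (-1) isUnit_one.neg
  have h21 : IsUnit (2 : A1) := by
    have := h2.map (algebraMap A A1)
    rwa [map_ofNat] at this
  obtain ⟨A2, _, _, _, hr2, hl2, hf2, hff2, hm2, k, hk, hku⟩ :=
    D0.exists_sqrt A1 h21 g hgu
  obtain ⟨hdom1, hufd1⟩ := Reg.ufd A1
  obtain ⟨hdom2, hufd2⟩ := Reg.ufd A2
  have h22 : IsUnit (2 : A2) := by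
    have := h21.map (algebraMap A1 A2)
    rwa [map_ofNat] at this
  let φ : A →+* A2 := (algebraMap A1 A2).comp (algebraMap A A1)
  let G : A2 := algebraMap A1 A2 g
  have hG : G ^ 2 = -1 := by
    simp only [G, ← map_pow, hg, map_neg, map_one]
  have hK : k ^ 2 = G := hk
  have hGu : IsUnit G := hgu.map _
  have hinj1 : Function.Injective (algebraMap A A1) := FaithfulSMul.algebraMap_injective A A1
  have hrp1 : IsRelPrime (algebraMap A A1 u) (algebraMap A A1 v) := relPrime_of_flat hu0 hrp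
  have hrp2 : IsRelPrime (φ u) (φ v) :=
    relPrime_of_flat (fun h0 => hu0 (hinj1 (by rw [h0, map_zero]))) hrp1
  have hφm : ∀ x ∈ maximalIdeal A, φ x ∈ maximalIdeal A2 := by
    intro x hx
    rw [← hm2, ← hm1]
    exact Ideal.mem_map_of_mem _ (Ideal.mem_map_of_mem _ hx)
  refine no_solution A2 h22 ![1, 1, 1, 1] ![k, -k, G * k, -(G * k)] ?_ (φ u) (φ v) (hφm _ hu)
    (hφm _ hv) hrp2 1 (φ s) isUnit_one ?_
  · have u12 : IsUnit ((1 - G) * (1 + G)) := by
      have : (1 - G) * (1 + G) = 2 := by linear_combination -hG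
      rw [this]; exact h22
    have u1 : IsUnit ((1 - G) * k) := (isUnit_of_mul_isUnit_left u12).mul hku
    have u2 : IsUnit ((1 + G) * k) := (isUnit_of_mul_isUnit_right u12).mul hku
    have u3 : IsUnit (2 * k) := h22.mul hku
    have u4 : IsUnit (2 * (G * k)) := h22.mul (hGu.mul hku)
    intro i j hij
    fin_cases i <;> fin_cases j <;> simp only [Matrix.cons_val_zero, Matrix.cons_val_one,
      Matrix.cons_val, Fin.zero_eta, Fin.mk_one, Fin.reduceFinMk, one_mul] <;> first
      | exact absurd rfl hij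
      | (convert u1 using 1 <;> ring1)
      | (convert u2 using 1 <;> ring1)
      | (convert u3 using 1 <;> ring1)
      | (convert u4 using 1 <;> ring1)
      | (convert u1.neg using 1 <;> ring1)
      | (convert u2.neg using 1 <;> ring1)
      | (convert u3.neg using 1 <;> ring1)
      | (convert u4.neg using 1 <;> ring1)
  · have F := congrArg φ h
    simp only [map_add, map_pow] at F
    rw [Fin.prod_univ_four]
    simp only [Matrix.cons_val_zero, Matrix.cons_val_one, Matrix.cons_val]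
    rw [one_mul, F]
    have e1 : k ^ 4 = -1 := by
      have : k ^ 4 = (k ^ 2) ^ 2 := by ring
      rw [this, hK, hG]
    have e2 : (φ u + k * φ v) * (φ u + -k * φ v) = φ u ^ 2 - G * φ v ^ 2 := by
      linear_combination (-(φ v) ^ 2) * hK
    have e3 : (φ u + G * k * φ v) * (φ u + -(G * k) * φ v) = φ u ^ 2 + G * φ v ^ 2 := by
      linear_combination (-(φ v) ^ 2 * G ^ 2) * hK - G * φ v ^ 2 * hG
    rw [e2, mul_assoc, e3]
    linear_combination (-(φ v) ^ 4) * hG

/-- Weil extension: a point of `w ^ 2 = x ^ 4 + 1` over the fraction field of a regular local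
ring in which `2` is a unit extends -/
theorem ext_point (A : Type u) [CommRing A] [IsLocalRing A] [IsRegularRing A]
    (h2 : IsUnit (2 : A)) (K : Type u) [Field K] [Algebra A K] [IsFractionRing A K] (x w : K)
    (h : w ^ 2 = x ^ 4 + 1) :
    (∃ a : A, algebraMap A K a = x) ∨ (∃ a : A, algebraMap A K a = x⁻¹) := by
  obtain ⟨hdom, hufd⟩ := Reg.ufd A
  have hinj : Function.Injective (algebraMap A K) := IsFractionRing.injective A K
  obtain ⟨a, b, hab, hx⟩ := IsFractionRing.exists_reduced_fraction (A := A) x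
  have hb0 : algebraMap A K (b : A) ≠ 0 := by
    intro h0
    exact nonZeroDivisors.ne_zero b.2 (hinj (by rw [h0, map_zero]))
  have hx' : x = algebraMap A K a / algebraMap A K b := by
    rw [← hx, IsFractionRing.mk'_eq_div]
  -- `w b ^ 2` is integral
  obtain ⟨s, hs⟩ : ∃ s : A, algebraMap A K s = w * algebraMap A K b ^ 2 := by
    apply IsIntegrallyClosed.algebraMap_eq_of_integral
    refine ⟨Polynomial.X ^ 2 - Polynomial.C (a ^ 4 + (b : A) ^ 4), ?_, ?_⟩
    · exact Polynomial.monic_X_pow_sub_C _ two_ne_zero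
    · rw [Polynomial.eval₂_sub, Polynomial.eval₂_X_pow, Polynomial.eval₂_C, map_add, map_pow,
        map_pow]
      rw [mul_pow, h, hx']
      field_simp
      ring
  have hs2 : s ^ 2 = a ^ 4 + (b : A) ^ 4 := by
    apply hinj
    rw [map_pow, hs, map_add, map_pow, map_pow, mul_pow, h, hx']
    field_simp
  by_cases hbu : IsUnit (b : A)
  · left
    obtain ⟨c, hc⟩ := hbu.exists_left_inv
    refine ⟨a * c, ?_⟩
    rw [map_mul, hx', eq_div_iff hb0, mul_assoc, ← map_mul, hc, map_one, mul_one]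
  by_cases hau : IsUnit a
  · right
    obtain ⟨c, hc⟩ := hau.exists_left_inv
    refine ⟨b * c, ?_⟩
    have ha0 : algebraMap A K a ≠ 0 := (hau.map _).ne_zero
    rw [map_mul, hx', inv_div, eq_div_iff ha0, mul_assoc, ← map_mul, hc, map_one, mul_one]
  exfalso
  exact no_fermat A h2 a b s ((mem_maximalIdeal _).2 hau) ((mem_maximalIdeal _).2 hbu) hab hs2

end MP55c1e7
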